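import Pool.Agent.W2helper2.AK.FC

/-!
# Germs of functions along a commensurated subgroup
-/

set_option autoImplicit false
set_option linter.unusedSectionVars false

namespace Pool.Agent.W2helper2.AK

section big

variable {G : Type} [Group G] (E : Subgroup G)

/-- `S` contains a subgroup of finite index of `E` -/
def Big (S : Set G) : Prop := ∃ M : Subgroup G, M ≤ E ∧ M.relIndex E ≠ 0 ∧ ∀ x ∈ M, x ∈ S

theorem Big.univ : Big E Set.univ := ⟨E, le_rfl, by rw [Subgroup.relIndex_self]; exact one_ne_zero,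
  fun _ _ => trivial⟩

theorem Big.mono {E : Subgroup G} {S T : Set G} (h : Big E S) (hST : S ⊆ T) : Big E T := by
  obtain ⟨M, h1, h2, h3⟩ := h
  exact ⟨M, h1, h2, fun x hx => hST (h3 x hx)⟩

theorem Big.inter {E : Subgroup G} {S T : Set G} (h : Big E S) (h' : Big E T) :
    Big E (S ∩ T) := by
  obtain ⟨M, h1, h2, h3⟩ := h
  obtain ⟨M', h1', h2', h3'⟩ := h'
  exact ⟨M ⊓ M', inf_le_left.trans h1, Subgroup.relIndex_inf_ne_zero h2 h2',
    fun x hx => ⟨h3 x hx.1, h3' x hx.2⟩⟩

/-- conjugation by `g` maps a subgroup of finite index of `E` into `E` -/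
def Cmg (g : G) : Prop := Big E {x | g * x * g⁻¹ ∈ E}

theorem Big.conj {E : Subgroup G} {S : Set G} (h : Big E S) {g : G} (hg : Cmg E g) :
    Big E {x | g * x * g⁻¹ ∈ S} := by
  obtain ⟨M, h1, h2, h3⟩ := h
  obtain ⟨M', h1', h2', h3'⟩ := hg
  refine ⟨M' ⊓ M.comap (MulAut.conj g).toMonoidHom, inf_le_left.trans h1', ?_, fun x hx => h3 _ hx.2⟩
  refine Subgroup.relIndex_ne_zero_trans (K := M') ?_ h2'
  rw [inf_comm, Subgroup.inf_relIndex_right, Subgroup.relIndex_comap]
  have h4 : M'.map (MulAut.conj g).toMonoidHom ≤ E := by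
    rintro _ ⟨x, hx, rfl⟩
    exact h3' x hx
  exact fun h5 => h2 (Subgroup.relIndex_eq_zero_of_le_right h4 h5)

theorem Big.sq {E : Subgroup G} {S : Set G} (h : Big E S) : Big E {x | x * x ∈ S} := by
  obtain ⟨M, h1, h2, h3⟩ := h
  exact ⟨M, h1, h2, fun x hx => h3 _ (M.mul_mem hx hx)⟩

theorem Big.one_mem {E : Subgroup G} {S : Set G} (h : Big E S) : (1 : G) ∈ S := by
  obtain ⟨M, h1, h2, h3⟩ := h
  exact h3 1 M.one_mem

/-- the functions which vanish on a subgroup of finite index of `E` -/
def ZI (K : Type) [Field K] : Ideal (G → K) where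
  carrier := {f | Big E {x | f x = 0}}
  add_mem' := by
    intro f g hf hg
    refine (Big.inter hf hg).mono ?_
    rintro x ⟨h1, h2⟩
    show f x + g x = 0
    rw [show f x = 0 from h1, show g x = 0 from h2, add_zero]
  zero_mem' := (Big.univ E).mono fun _ _ => rfl
  smul_mem' := by
    intro c f hf
    refine Big.mono hf ?_
    intro x hx
    show c x * f x = 0
    rw [show f x = 0 from hx, mul_zero]

theorem mem_ZI {K : Type} [Field K] (f : G → K) : f ∈ ZI E K ↔ Big E {x | f x = 0} := Iff.rfl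

/-- germs of functions -/
abbrev Qg (K : Type) [Field K] : Type := (G → K) ⧸ ZI E K

variable (K : Type) [Field K]

/-- the germ of a function -/
def gm : (G → K) →ₐ[K] Qg E K := Ideal.Quotient.mkₐ K (ZI E K)

theorem gm_surj : Function.Surjective (gm E K) := Ideal.Quotient.mk_surjective

variable {K}

theorem gm_eq {f g : G → K} : gm E K f = gm E K g ↔ Big E {x | f x = g x} := by
  show Ideal.Quotient.mk _ f = Ideal.Quotient.mk _ g ↔ _
  rw [Ideal.Quotient.eq, mem_ZI]
  constructor
  · intro h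
    exact h.mono fun x hx => sub_eq_zero.1 hx
  · intro h
    exact h.mono fun x hx => sub_eq_zero.2 hx

/-- precomposition -/
def pc (K : Type) [Field K] (c : G → G) : (G → K) →ₐ[K] (G → K) where
  toFun f x := f (c x)
  map_one' := rfl
  map_mul' _ _ := rfl
  map_zero' := rfl
  map_add' _ _ := rfl
  commutes' _ := rfl

variable (K) in
/-- precomposition with a map that preserves big sets -/
def pre (c : G → G) (hc : ∀ S, Big E S → Big E {x | c x ∈ S}) : Qg E K →ₐ[K] Qg E K :=
  Ideal.Quotient.liftₐ (ZI E K) ((gm E K).comp (pc K c)) (by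
    intro f hf
    show gm E K (fun x => f (c x)) = 0
    rw [← map_zero (gm E K), gm_eq]
    exact hc _ hf)

theorem pre_gm (c : G → G) (hc : ∀ S, Big E S → Big E {x | c x ∈ S}) (f : G → K) :
    pre E K c hc (gm E K f) = gm E K (fun x => f (c x)) := rfl

variable (K) in
/-- the value at the identity -/
def ev1 : Qg E K →ₐ[K] K :=
  Ideal.Quotient.liftₐ (ZI E K) (Pi.evalAlgHom K (fun _ : G => K) 1) (by
    intro f hf
    exact Big.one_mem hf)

theorem ev1_gm (f : G → K) : ev1 E K (gm E K f) = f 1 := rfl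

variable (K) in
/-- the squaring map -/
def sq : Qg E K →ₐ[K] Qg E K := pre E K (fun x => x * x) fun _ h => h.sq

theorem sq_gm (f : G → K) : sq E K (gm E K f) = gm E K (fun x => f (x * x)) := rfl

end big

section act

variable {G : Type} [Group G] (E H : Subgroup G) (hH : ∀ g ∈ H, Cmg E g) (K : Type) [Field K]

/-- the action of the commensurating elements on the germs -/
def tau : H →* (Qg E K →ₐ[K] Qg E K) where
  toFun g := pre E K (fun x => (g : G)⁻¹ * x * (g : G)) fun S hS => by
    have h1 := hS.conj (hH _ (H.inv_mem g.2))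
    rw [inv_inv] at h1
    exact h1
  map_one' := by
    apply AlgHom.ext
    intro a
    obtain ⟨f, rfl⟩ := gm_surj E K a
    rw [pre_gm]
    show _ = gm E K f
    congr 1
    funext x
    show f ((1 : G)⁻¹ * x * 1) = f x
    rw [inv_one, one_mul, mul_one]
  map_mul' g h := by
    apply AlgHom.ext
    intro a
    obtain ⟨f, rfl⟩ := gm_surj E K a
    rw [AlgHom.mul_apply, pre_gm, pre_gm, pre_gm]
    congr 1
    funext x
    congr 1
    show ((g : G) * (h : G))⁻¹ * x * ((g : G) * (h : G)) = _
    group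

theorem tau_gm (g : H) (f : G → K) :
    tau E H hH K g (gm E K f) = gm E K (fun x => f ((g : G)⁻¹ * x * (g : G))) := rfl

theorem ev1_tau (g : H) (a : Qg E K) : ev1 E K (tau E H hH K g a) = ev1 E K a := by
  obtain ⟨f, rfl⟩ := gm_surj E K a
  rw [tau_gm, ev1_gm, ev1_gm, mul_one, inv_mul_cancel]

theorem tau_sq (g : H) (a : Qg E K) : tau E H hH K g (sq E K a) = sq E K (tau E H hH K g a) := by
  obtain ⟨f, rfl⟩ := gm_surj E K a
  rw [tau_gm, sq_gm, sq_gm, tau_gm]
  congr 1
  funext x
  congr 1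
  group

end act

section coord

variable {K G : Type} [Field K] [Group G] {E : Subgroup G} {n : ℕ} (ρ : E →* GL (Fin n) K)

open Classical in
/-- extension by zero -/
noncomputable def co (f : E → K) : G → K := fun x => if h : x ∈ E then f ⟨x, h⟩ else 0

theorem co_apply (f : E → K) (x : G) (h : x ∈ E) : co f x = f ⟨x, h⟩ := dif_pos h

theorem big_E : Big E {x | x ∈ E} := ⟨E, le_rfl, by
  rw [Subgroup.relIndex_self]; exact one_ne_zero, fun _ h => h⟩

/-- the germ of a function on `E` -/
noncomputable def io (E : Subgroup G) (K : Type) [Field K] : (E → K) →ₐ[K] Qg E K where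
  toFun f := gm E K (co f)
  map_one' := by
    rw [← map_one (gm E K), gm_eq]
    refine big_E.mono fun x hx => ?_
    show co 1 x = 1
    rw [co_apply _ x hx]
    rfl
  map_mul' f g := by
    rw [← map_mul, gm_eq]
    refine big_E.mono fun x hx => ?_
    show co (f * g) x = co f x * co g x
    rw [co_apply _ x hx, co_apply _ x hx, co_apply _ x hx]
    rfl
  map_zero' := by
    rw [← map_zero (gm E K), gm_eq]
    refine big_E.mono fun x hx => ?_
    show co 0 x = 0
    rw [co_apply _ x hx]
    rfl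
  map_add' f g := by
    rw [← map_add, gm_eq]
    refine big_E.mono fun x hx => ?_
    show co (f + g) x = co f x + co g x
    rw [co_apply _ x hx, co_apply _ x hx, co_apply _ x hx]
    rfl
  commutes' r := by
    rw [← AlgHom.commutes (gm E K) r, gm_eq]
    refine big_E.mono fun x hx => ?_
    show co _ x = _
    rw [co_apply _ x hx]
    rfl

theorem io_apply (f : E → K) : io E K f = gm E K (co f) := rfl

theorem io_eq_gm (f : E → K) (g : G → K) (h : Big E {x | ∀ hx : x ∈ E, f ⟨x, hx⟩ = g x}) :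
    io E K f = gm E K g := by
  rw [io_apply, gm_eq]
  refine (h.inter big_E).mono ?_
  rintro x ⟨h1, h2⟩
  show co f x = g x
  rw [co_apply _ x h2]
  exact h1 h2

/-- the coordinate ring of the identity component of the closure of `E` -/
noncomputable def AA : Subalgebra K (Qg E K) := (CR ρ).map (io E K)

theorem mem_AA {a : Qg E K} : a ∈ AA ρ ↔ ∃ f ∈ CR ρ, io E K f = a := Iff.rfl

theorem io_mem {f : E → K} (hf : f ∈ CR ρ) : io E K f ∈ AA ρ := ⟨f, hf, rfl⟩

instance noethA : IsNoetherianRing (AA ρ) := by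
  let F : CR ρ →+* AA ρ := (((io E K : (E → K) →ₐ[K] Qg E K) : (E → K) →+* Qg E K).restrict (CR ρ)
    (AA ρ) fun f hf => io_mem ρ hf)
  refine isNoetherianRing_of_surjective (CR ρ) (AA ρ) F ?_
  rintro ⟨a, f, hf, rfl⟩
  exact ⟨⟨f, hf⟩, rfl⟩

theorem AA_induction {p : Qg E K → Prop} (hgen : ∀ s, p (io E K (ent ρ s)))
    (halg : ∀ r : K, p (algebraMap K _ r)) (hadd : ∀ a ∈ AA ρ, ∀ b ∈ AA ρ, p a → p b → p (a + b))
    (hmul : ∀ a ∈ AA ρ, ∀ b ∈ AA ρ, p a → p b → p (a * b)) {a : Qg E K} (ha : a ∈ AA ρ) : p a := by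
  obtain ⟨f, hf, rfl⟩ := (mem_AA ρ).1 ha
  unfold CR at hf
  induction hf using Algebra.adjoin_induction with
  | mem f hf =>
    obtain ⟨s, rfl⟩ := hf
    exact hgen s
  | algebraMap r =>
    have h : io E K (algebraMap K (E → K) r) = algebraMap K (Qg E K) r := AlgHom.commutes _ r
    rw [h]
    exact halg r
  | add f g hf hg ihf ihg =>
    have h : io E K (f + g) = io E K f + io E K g := map_add _ _ _
    rw [h]
    exact hadd _ (io_mem ρ hf) _ (io_mem ρ hg) (ihf (io_mem ρ hf)) (ihg (io_mem ρ hg))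
  | mul f g hf hg ihf ihg =>
    have h : io E K (f * g) = io E K f * io E K g := map_mul _ _ _
    rw [h]
    exact hmul _ (io_mem ρ hf) _ (io_mem ρ hg) (ihf (io_mem ρ hf)) (ihg (io_mem ρ hg))

end coord

end Pool.Agent.W2helper2.AK
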