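import Pool.Agent.W2helper2.AK.Jump

/-!
# The tangent representation of the algebraic commensurator
-/

set_option autoImplicit false
set_option linter.unusedSectionVars false

namespace Pool.Agent.W2helper2.AK

section fin

variable {G : Type} [Group G] {E : Subgroup G}

theorem Big.iInter {ι : Type} [Finite ι] {S : ι → Set G} (h : ∀ i, Big E (S i)) :
    Big E {x | ∀ i, x ∈ S i} := by
  classical
  have key : ∀ s : Finset ι, Big E {x | ∀ i ∈ s, x ∈ S i} := by
    intro s
    induction s using Finset.induction_on with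
    | empty => exact (Big.univ E).mono fun x _ i hi => absurd hi (Finset.notMem_empty _)
    | insert a s _ ih =>
      refine ((h a).inter ih).mono ?_
      rintro x ⟨h1, h2⟩ i hi
      rcases Finset.mem_insert.1 hi with rfl | hi
      · exact h1
      · exact h2 i hi
  have := Fintype.ofFinite ι
  exact (key Finset.univ).mono fun x hx i => hx i (Finset.mem_univ i)

end fin

section act

variable {K G : Type} [Field K] [Group G] {E : Subgroup G} {n : ℕ} (ρ : E →* GL (Fin n) K)
  {H : Subgroup G} (hH : ∀ g ∈ H, Cmg E g)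

/-- the entries of `x * x` -/
theorem sq_ent (s : (Fin n × Fin n) ⊕ (Fin n × Fin n)) :
    sq E K (io E K (ent ρ s)) = match s with
      | Sum.inl p => ∑ k, io E K (ent ρ (Sum.inl (p.1, k))) * io E K (ent ρ (Sum.inl (k, p.2)))
      | Sum.inr p => ∑ k, io E K (ent ρ (Sum.inr (p.1, k))) * io E K (ent ρ (Sum.inr (k, p.2))) := by
  rcases s with p | p
  · have h1 : (∑ k, io E K (ent ρ (Sum.inl (p.1, k))) * io E K (ent ρ (Sum.inl (k, p.2)))) =
        io E K (∑ k, ent ρ (Sum.inl (p.1, k)) * ent ρ (Sum.inl (k, p.2))) := by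
      rw [map_sum]
      exact Finset.sum_congr rfl fun k _ => (map_mul _ _ _).symm
    refine Eq.trans ?_ h1.symm
    rw [io_apply, sq_gm, io_apply, gm_eq]
    refine big_E.mono fun x hx => ?_
    show co (ent ρ (Sum.inl p)) (x * x) = co _ x
    rw [co_apply _ _ (E.mul_mem hx hx), co_apply _ _ hx]
    show (ρ (⟨x, hx⟩ * ⟨x, hx⟩) : Matrix (Fin n) (Fin n) K) p.1 p.2 = _
    rw [map_mul, Units.val_mul, Matrix.mul_apply, Finset.sum_apply]
    rfl
  · have h1 : (∑ k, io E K (ent ρ (Sum.inr (p.1, k))) * io E K (ent ρ (Sum.inr (k, p.2)))) =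
        io E K (∑ k, ent ρ (Sum.inr (p.1, k)) * ent ρ (Sum.inr (k, p.2))) := by
      rw [map_sum]
      exact Finset.sum_congr rfl fun k _ => (map_mul _ _ _).symm
    refine Eq.trans ?_ h1.symm
    rw [io_apply, sq_gm, io_apply, gm_eq]
    refine big_E.mono fun x hx => ?_
    show co (ent ρ (Sum.inr p)) (x * x) = co _ x
    rw [co_apply _ _ (E.mul_mem hx hx), co_apply _ _ hx]
    show (ρ (⟨x, hx⟩ * ⟨x, hx⟩)⁻¹ : Matrix (Fin n) (Fin n) K) p.1 p.2 = _
    rw [mul_inv_rev, map_mul, Units.val_mul, Matrix.mul_apply, Finset.sum_apply]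
    rfl

theorem sq_mem {a : Qg E K} (ha : a ∈ AA ρ) : sq E K a ∈ AA ρ := by
  refine AA_induction ρ (p := fun a => sq E K a ∈ AA ρ) ?_ ?_ ?_ ?_ ha
  · intro s
    rw [sq_ent]
    rcases s with p | p
    · exact (AA ρ).sum_mem fun k _ => (AA ρ).mul_mem (io_mem ρ (ent_mem ρ _)) (io_mem ρ (ent_mem ρ _))
    · exact (AA ρ).sum_mem fun k _ => (AA ρ).mul_mem (io_mem ρ (ent_mem ρ _)) (io_mem ρ (ent_mem ρ _))
  · intro r
    rw [AlgHom.commutes]
    exact (AA ρ).algebraMap_mem r
  · intro a _ b _ ha hb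
    rw [map_add]
    exact (AA ρ).add_mem ha hb
  · intro a _ b _ ha hb
    rw [map_mul]
    exact (AA ρ).mul_mem ha hb

/-- the squaring map on the coordinate ring -/
noncomputable def sA : AA ρ →ₐ[K] AA ρ :=
  ((sq E K).comp (AA ρ).val).codRestrict (AA ρ) fun a => sq_mem ρ a.2

theorem sA_coe (a : AA ρ) : (sA ρ a : Qg E K) = sq E K a := rfl

/-- the augmentation of the coordinate ring -/
noncomputable def eA : AA ρ →ₐ[K] K := (ev1 E K).comp (AA ρ).val

theorem eA_apply (a : AA ρ) : eA ρ a = ev1 E K a := rfl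

theorem eA_sA (a : AA ρ) : eA ρ (sA ρ a) = eA ρ a := by
  obtain ⟨f, hf⟩ := gm_surj E K a
  rw [eA_apply, eA_apply, sA_coe, ← hf, sq_gm, ev1_gm, ev1_gm, mul_one]

/-- the matrix entries as elements of the coordinate ring -/
noncomputable def xA (s : (Fin n × Fin n) ⊕ (Fin n × Fin n)) : AA ρ :=
  ⟨io E K (ent ρ s), io_mem ρ (ent_mem ρ s)⟩

theorem eA_xA (s : (Fin n × Fin n) ⊕ (Fin n × Fin n)) : eA ρ (xA ρ s) = match s with
      | Sum.inl p => (1 : Matrix (Fin n) (Fin n) K) p.1 p.2
      | Sum.inr p => (1 : Matrix (Fin n) (Fin n) K) p.1 p.2 := by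
  rcases s with p | p
  · show ev1 E K (io E K (ent ρ (Sum.inl p))) = (1 : Matrix (Fin n) (Fin n) K) p.1 p.2
    rw [io_apply, ev1_gm, co_apply _ _ E.one_mem]
    show (ρ 1 : Matrix (Fin n) (Fin n) K) p.1 p.2 = _
    rw [map_one]
    rfl
  · show ev1 E K (io E K (ent ρ (Sum.inr p))) = (1 : Matrix (Fin n) (Fin n) K) p.1 p.2
    rw [io_apply, ev1_gm, co_apply _ _ E.one_mem]
    show (ρ (1 : E)⁻¹ : Matrix (Fin n) (Fin n) K) p.1 p.2 = _
    rw [inv_one, map_one]
    rfl

/-- the differential of the squaring map -/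
theorem sA_two (a : AA ρ) (ha : a ∈ II (eA ρ)) : sA ρ a - 2 * a ∈ II (eA ρ) ^ 2 := by
  have key : ∀ a : Qg E K, a ∈ AA ρ → ∀ h : a ∈ AA ρ,
      sA ρ (⟨a, h⟩ - algebraMap K _ (eA ρ ⟨a, h⟩)) - 2 * (⟨a, h⟩ - algebraMap K _ (eA ρ ⟨a, h⟩)) ∈
        II (eA ρ) ^ 2 := by
    intro a ha0
    refine AA_induction ρ (p := fun a => ∀ h : a ∈ AA ρ,
      sA ρ (⟨a, h⟩ - algebraMap K _ (eA ρ ⟨a, h⟩)) - 2 * (⟨a, h⟩ - algebraMap K _ (eA ρ ⟨a, h⟩)) ∈
        II (eA ρ) ^ 2) ?_ ?_ ?_ ?_ ha0
    · -- generators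
      intro s h
      -- the differences
      have hprod : ∀ x : Fin n → Fin n → AA ρ, (∀ i j, eA ρ (x i j) = (1 : Matrix _ _ K) i j) →
          ∀ i j, (∑ k, x i k * x k j - algebraMap K (AA ρ) ((1 : Matrix (Fin n) (Fin n) K) i j)) -
            2 * (x i j - algebraMap K (AA ρ) ((1 : Matrix (Fin n) (Fin n) K) i j)) ∈
              II (eA ρ) ^ 2 := by
        intro x hx i j
        have h1 : (∑ k, x i k * x k j -
            algebraMap K (AA ρ) ((1 : Matrix (Fin n) (Fin n) K) i j)) -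
            2 * (x i j - algebraMap K (AA ρ) ((1 : Matrix (Fin n) (Fin n) K) i j)) =
            ∑ k, (x i k - algebraMap K (AA ρ) ((1 : Matrix (Fin n) (Fin n) K) i k)) *
              (x k j - algebraMap K (AA ρ) ((1 : Matrix (Fin n) (Fin n) K) k j)) := by
          have h2 : ∀ k, (x i k - algebraMap K (AA ρ) ((1 : Matrix (Fin n) (Fin n) K) i k)) *
              (x k j - algebraMap K (AA ρ) ((1 : Matrix (Fin n) (Fin n) K) k j)) =
              x i k * x k j - algebraMap K (AA ρ) ((1 : Matrix (Fin n) (Fin n) K) i k) * x k j -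
                x i k * algebraMap K (AA ρ) ((1 : Matrix (Fin n) (Fin n) K) k j) +
                algebraMap K (AA ρ) ((1 : Matrix (Fin n) (Fin n) K) i k *
                  (1 : Matrix (Fin n) (Fin n) K) k j) := by
            intro k
            rw [map_mul]
            ring
          rw [Finset.sum_congr rfl fun k _ => h2 k, Finset.sum_add_distrib,
            Finset.sum_sub_distrib, Finset.sum_sub_distrib]
          have h3 : ∑ k, algebraMap K (AA ρ) ((1 : Matrix (Fin n) (Fin n) K) i k) * x k j =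
              x i j := by
            rw [Finset.sum_eq_single i]
            · rw [Matrix.one_apply_eq, map_one, one_mul]
            · intro k _ hk
              rw [Matrix.one_apply_ne (Ne.symm hk), map_zero, zero_mul]
            · intro h
              exact absurd (Finset.mem_univ i) h
          have h4 : ∑ k, x i k * algebraMap K (AA ρ) ((1 : Matrix (Fin n) (Fin n) K) k j) =
              x i j := by
            rw [Finset.sum_eq_single j]
            · rw [Matrix.one_apply_eq, map_one, mul_one]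
            · intro k _ hk
              rw [Matrix.one_apply_ne hk, map_zero, mul_zero]
            · intro h
              exact absurd (Finset.mem_univ j) h
          have h5 : ∑ k, algebraMap K (AA ρ) ((1 : Matrix (Fin n) (Fin n) K) i k *
              (1 : Matrix (Fin n) (Fin n) K) k j) =
              algebraMap K (AA ρ) ((1 : Matrix (Fin n) (Fin n) K) i j) := by
            rw [← map_sum, ← Matrix.mul_apply, one_mul]
          rw [h3, h4, h5]
          ring
        rw [h1]
        refine Ideal.sum_mem _ fun k _ => ?_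
        rw [pow_two]
        refine Ideal.mul_mem_mul ?_ ?_
        · rw [← hx i k]
          exact sub_mem_II _ _
        · rw [← hx k j]
          exact sub_mem_II _ _
      rcases s with p | p
      · have h1 := hprod (fun i j => xA ρ (Sum.inl (i, j))) (fun i j => eA_xA ρ _) p.1 p.2
        have h2 : (⟨io E K (ent ρ (Sum.inl p)), h⟩ : AA ρ) = xA ρ (Sum.inl (p.1, p.2)) := rfl
        have h3 : sA ρ (xA ρ (Sum.inl (p.1, p.2))) =
            ∑ k, xA ρ (Sum.inl (p.1, k)) * xA ρ (Sum.inl (k, p.2)) := by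
          apply Subtype.ext
          rw [AddSubmonoidClass.coe_finsetSum]
          exact sq_ent ρ (Sum.inl p)
        rw [h2, map_sub, AlgHom.commutes, h3]
        have h4 : eA ρ (xA ρ (Sum.inl (p.1, p.2))) = (1 : Matrix (Fin n) (Fin n) K) p.1 p.2 :=
          eA_xA ρ _
        rw [h4]
        exact h1
      · have h1 := hprod (fun i j => xA ρ (Sum.inr (i, j))) (fun i j => eA_xA ρ _) p.1 p.2
        have h2 : (⟨io E K (ent ρ (Sum.inr p)), h⟩ : AA ρ) = xA ρ (Sum.inr (p.1, p.2)) := rfl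
        have h3 : sA ρ (xA ρ (Sum.inr (p.1, p.2))) =
            ∑ k, xA ρ (Sum.inr (p.1, k)) * xA ρ (Sum.inr (k, p.2)) := by
          apply Subtype.ext
          rw [AddSubmonoidClass.coe_finsetSum]
          exact sq_ent ρ (Sum.inr p)
        rw [h2, map_sub, AlgHom.commutes, h3]
        have h4 : eA ρ (xA ρ (Sum.inr (p.1, p.2))) = (1 : Matrix (Fin n) (Fin n) K) p.1 p.2 :=
          eA_xA ρ _
        rw [h4]
        exact h1
    · intro r h
      have h1 : (⟨algebraMap K (Qg E K) r, h⟩ : AA ρ) = algebraMap K _ r := rfl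
      rw [h1, AlgHom.commutes]
      have h2 : algebraMap K (AA ρ) r - algebraMap K (AA ρ) (algebraMap K K r) = 0 := sub_self _
      rw [h2, map_zero, mul_zero, sub_zero]
      exact Ideal.zero_mem _
    · intro a ha b hb iha ihb h
      have h1 : (⟨a + b, h⟩ : AA ρ) = ⟨a, ha⟩ + ⟨b, hb⟩ := rfl
      have h2 : sA ρ (⟨a + b, h⟩ - algebraMap K _ (eA ρ ⟨a + b, h⟩)) -
          2 * (⟨a + b, h⟩ - algebraMap K _ (eA ρ ⟨a + b, h⟩)) =
          (sA ρ (⟨a, ha⟩ - algebraMap K _ (eA ρ ⟨a, ha⟩)) -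
            2 * (⟨a, ha⟩ - algebraMap K _ (eA ρ ⟨a, ha⟩))) +
          (sA ρ (⟨b, hb⟩ - algebraMap K _ (eA ρ ⟨b, hb⟩)) -
            2 * (⟨b, hb⟩ - algebraMap K _ (eA ρ ⟨b, hb⟩))) := by
        rw [h1, map_add (eA ρ), map_add (algebraMap K (AA ρ)), map_sub, map_sub, map_sub, map_add,
          map_add]
        ring
      rw [h2]
      exact Ideal.add_mem _ (iha ha) (ihb hb)
    · intro a ha b hb iha ihb h
      have h1 : (⟨a * b, h⟩ : AA ρ) = ⟨a, ha⟩ * ⟨b, hb⟩ := rfl
      obtain ⟨α, hα⟩ : ∃ α, α = eA ρ ⟨a, ha⟩ := ⟨_, rfl⟩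
      obtain ⟨β, hβ⟩ : ∃ β, β = eA ρ ⟨b, hb⟩ := ⟨_, rfl⟩
      obtain ⟨a', ha'⟩ : ∃ a' : AA ρ, a' = ⟨a, ha⟩ - algebraMap K _ α := ⟨_, rfl⟩
      obtain ⟨b', hb'⟩ : ∃ b' : AA ρ, b' = ⟨b, hb⟩ - algebraMap K _ β := ⟨_, rfl⟩
      have ia := iha ha
      have ib := ihb hb
      rw [← hα, ← ha'] at ia
      rw [← hβ, ← hb'] at ib
      have ma : a' ∈ II (eA ρ) := by
        rw [ha', hα]
        exact sub_mem_II _ _
      have mb : b' ∈ II (eA ρ) := by
        rw [hb', hβ]
        exact sub_mem_II _ _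
      have h2 : (⟨a * b, h⟩ : AA ρ) - algebraMap K _ (eA ρ ⟨a * b, h⟩) =
          algebraMap K _ α * b' + algebraMap K _ β * a' + a' * b' := by
        rw [h1, map_mul (eA ρ), ← hα, ← hβ, map_mul (algebraMap K (AA ρ)), ha', hb']
        ring
      have h3 : sA ρ (algebraMap K _ α * b' + algebraMap K _ β * a' + a' * b') -
          2 * (algebraMap K _ α * b' + algebraMap K _ β * a' + a' * b') =
          algebraMap K _ α * (sA ρ b' - 2 * b') + algebraMap K _ β * (sA ρ a' - 2 * a') +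
            (sA ρ a' * sA ρ b' - 2 * (a' * b')) := by
        rw [map_add, map_add, map_mul, map_mul, map_mul, AlgHom.commutes, AlgHom.commutes]
        ring
      rw [h2, h3]
      refine Ideal.add_mem _ (Ideal.add_mem _ (Ideal.mul_mem_left _ _ ib)
        (Ideal.mul_mem_left _ _ ia)) (Ideal.sub_mem _ ?_ (Ideal.mul_mem_left _ _ ?_))
      · rw [pow_two]
        refine Ideal.mul_mem_mul ?_ ?_
        · rw [mem_II, eA_sA]
          exact ma
        · rw [mem_II, eA_sA]
          exact mb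
      · rw [pow_two]
        exact Ideal.mul_mem_mul ma mb
  have h1 := key a a.2 a.2
  have h2 : eA ρ (⟨(a : Qg E K), a.2⟩ : AA ρ) = 0 := ha
  rw [h2, map_zero, sub_zero] at h1
  exact h1

variable (hA : ∀ g : H, ∀ a ∈ AA ρ, tau E H hH K g a ∈ AA ρ)

/-- the action on the coordinate ring -/
noncomputable def tA : H →* (AA ρ →ₐ[K] AA ρ) where
  toFun g := ((tau E H hH K g).comp (AA ρ).val).codRestrict (AA ρ) fun a => hA g a a.2
  map_one' := by
    apply AlgHom.ext
    intro a
    apply Subtype.ext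
    show tau E H hH K 1 (a : Qg E K) = a
    rw [map_one]
    rfl
  map_mul' g h := by
    apply AlgHom.ext
    intro a
    apply Subtype.ext
    show tau E H hH K (g * h) (a : Qg E K) = tau E H hH K g (tau E H hH K h a)
    rw [map_mul]
    rfl

theorem tA_coe (g : H) (a : AA ρ) : (tA ρ hH hA g a : Qg E K) = tau E H hH K g a := rfl

/-- commensurating elements which act trivially on the tangent space centralize a subgroup of finite
index -/
theorem tangent [CharZero K] (hρ : Function.Injective ρ) (g : H)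
    (h2 : ∀ a, tA ρ hH hA g a - a ∈ II (eA ρ) ^ 2) :
    (Subgroup.centralizer {(g : G)}).relIndex E ≠ 0 := by
  classical
  have hjump : ∀ l a, tA ρ hH hA g a - a ∈ II (eA ρ) ^ l := fun l a =>
    jump (eA ρ) (eA_sA ρ) (sA_two ρ) (fun a => ev1_tau E H hH K g a)
      (fun a => Subtype.ext (tau_sq E H hH K g a)) h2 l a
  choose u hu1 hu using fun s => krull_abs (eA ρ) fun l => hjump l (xA ρ s)
  obtain ⟨v, hv⟩ : ∃ v : AA ρ, v = ∏ s, u s := ⟨_, rfl⟩
  have hv1 : eA ρ v = 1 := by
    rw [hv, map_prod]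
    exact Finset.prod_eq_one fun s _ => hu1 s
  have hvu : ∀ s, v * (tA ρ hH hA g (xA ρ s) - xA ρ s) = 0 := by
    intro s
    rw [hv, ← Finset.prod_erase_mul Finset.univ u (Finset.mem_univ s), mul_assoc, hu s, mul_zero]
  obtain ⟨w, hw, hwv⟩ := (mem_AA ρ).1 v.2
  have hw1 : w 1 = 1 := by
    have h3 : ev1 E K (io E K w) = 1 := by rw [hwv]; exact hv1
    rw [io_apply, ev1_gm, co_apply _ _ E.one_mem] at h3
    exact h3
  have hbig : ∀ s, Big E {x | co w x * (co (ent ρ s) ((g : G)⁻¹ * x * (g : G)) -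
      co (ent ρ s) x) = 0} := by
    intro s
    have h3 : io E K w * (tau E H hH K g (io E K (ent ρ s)) - io E K (ent ρ s)) = 0 := by
      rw [hwv]
      exact congrArg Subtype.val (hvu s)
    have h4 : gm E K (fun x => co w x * (co (ent ρ s) ((g : G)⁻¹ * x * (g : G)) -
        co (ent ρ s) x)) = gm E K 0 := by
      rw [map_zero, ← h3, io_apply, io_apply, tau_gm, ← map_sub, ← map_mul]
      rfl
    exact (gm_eq E).1 h4
  have hconj : Big E {x | (g : G)⁻¹ * x * (g : G) ∈ E} := by
    have h3 := hH _ (H.inv_mem g.2)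
    unfold Cmg at h3
    rw [inv_inv] at h3
    exact h3
  obtain ⟨M, hM1, hM2, hM3⟩ := (Big.iInter hbig).inter hconj
  refine Subgroup.relIndex_ne_zero_trans (K := M) ?_ hM2
  let i : M →* E := Subgroup.inclusion hM1
  have hcov := cover (ρ.comp i) ⟨_, res_mem ρ i hw⟩ (by
    show w (i 1) = 1
    rw [map_one, hw1]) ((Subgroup.centralizer {(g : G)}).subgroupOf M) ?_
  · exact hcov.index_ne_zero
  · intro x hx
    have hx' : w (i x) ≠ 0 := hx
    obtain ⟨h3, h4⟩ := hM3 x x.2
    have h4 : (g : G)⁻¹ * x * (g : G) ∈ E := h4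
    have h5 : ρ ⟨_, h4⟩ = ρ (i x) := by
      apply Units.ext
      ext a b
      have h6 : co w (x : G) * (co (ent ρ (Sum.inl (a, b))) ((g : G)⁻¹ * x * (g : G)) -
        co (ent ρ (Sum.inl (a, b))) (x : G)) = 0 := h3 (Sum.inl (a, b))
      rw [co_apply _ _ (hM1 x.2), co_apply _ _ h4, co_apply _ _ (hM1 x.2)] at h6
      exact sub_eq_zero.1 ((mul_eq_zero.1 h6).resolve_left hx')
    have h6 : (g : G)⁻¹ * x * (g : G) = x := congrArg Subtype.val (hρ h5)
    rw [Subgroup.mem_subgroupOf, Subgroup.mem_centralizer_iff]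
    intro z hz
    rw [Set.mem_singleton_iff.1 hz]
    have h7 := congrArg (fun z => (g : G) * z) h6
    simpa [mul_assoc] using h7.symm

include hH hA in
/-- **the tangent representation** -/
theorem exists_tangent [CharZero K] (hρ : Function.Injective ρ) : ∃ (d : ℕ)
    (f : H →* GL (Fin d) K), ∀ g : H, f g = 1 →
      (Subgroup.centralizer {(g : G)}).relIndex E ≠ 0 := by
  obtain ⟨d, f, hf⟩ := jet_GL (eA ρ) (tA ρ hH hA) (fun g a => ev1_tau E H hH K g a) 2
  exact ⟨d, f, fun g hg => tangent ρ hH hA hρ g (hf g hg)⟩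

end act

end Pool.Agent.W2helper2.AK
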