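import Pool.Agent.W2helper2.AK.Jet

/-!
# Elements that act trivially on all jets have centralizers of finite index
-/

set_option autoImplicit false
set_option linter.unusedSectionVars false

namespace Pool.Agent.W2helper2.AK

/-! ### the FC-centre -/

section fc

/-- the elements with finitely many conjugates -/
def FCc (N : Type) [Group N] : Subgroup N where
  carrier := {y | (Subgroup.centralizer {y}).FiniteIndex}
  one_mem' := by
    have h : Subgroup.centralizer {(1 : N)} = ⊤ := by
      rw [eq_top_iff]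
      intro x _
      rw [Subgroup.mem_centralizer_iff]
      rintro _ rfl
      rw [mul_one, one_mul]
    show (Subgroup.centralizer {(1 : N)}).FiniteIndex
    rw [h]
    infer_instance
  mul_mem' := by
    intro a b ha hb
    have ha' : (Subgroup.centralizer {a}).FiniteIndex := ha
    have hb' : (Subgroup.centralizer {b}).FiniteIndex := hb
    refine Subgroup.finiteIndex_of_le (H := Subgroup.centralizer {a} ⊓ Subgroup.centralizer {b}) ?_
    intro x hx
    obtain ⟨h1, h2⟩ := hx
    have e1 := Subgroup.mem_centralizer_iff.1 h1 a rfl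
    have e2 := Subgroup.mem_centralizer_iff.1 h2 b rfl
    rw [Subgroup.mem_centralizer_iff]
    rintro _ rfl
    rw [mul_assoc, e2, ← mul_assoc, e1, mul_assoc]
  inv_mem' := by
    intro a ha
    have ha' : (Subgroup.centralizer {a}).FiniteIndex := ha
    refine Subgroup.finiteIndex_of_le (H := Subgroup.centralizer {a}) ?_
    intro x hx
    rw [Subgroup.mem_centralizer_iff] at hx ⊢
    rintro _ rfl
    have e1 := hx a rfl
    rw [inv_mul_eq_iff_eq_mul, ← mul_assoc, e1, mul_assoc, mul_inv_cancel, mul_one]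

theorem mem_FCc {N : Type} [Group N] (y : N) :
    y ∈ FCc N ↔ (Subgroup.centralizer {y}).FiniteIndex := Iff.rfl

instance FCc_char (N : Type) [Group N] : (FCc N).Characteristic := by
  rw [Subgroup.characteristic_iff_le_comap]
  intro φ y hy
  rw [Subgroup.mem_comap, mem_FCc]
  have hy' : (Subgroup.centralizer {y}).FiniteIndex := hy
  have h : Subgroup.centralizer {φ.toMonoidHom y} =
      (Subgroup.centralizer {y}).comap φ.symm.toMonoidHom := by
    ext x
    rw [Subgroup.mem_comap, Subgroup.mem_centralizer_iff, Subgroup.mem_centralizer_iff]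
    constructor
    · rintro h _ rfl
      have := h _ rfl
      apply φ.injective
      rw [map_mul, map_mul]
      simpa using this
    · rintro h _ rfl
      have := congrArg φ (h _ rfl)
      rw [map_mul, map_mul] at this
      simpa using this
  rw [h]
  exact ⟨by
    rw [Subgroup.index_comap_of_surjective _ φ.symm.surjective]
    exact hy'.index_ne_zero⟩

variable {K N : Type} [Field K] [Group N] {n : ℕ} {ρ : N →* GL (Fin n) K}

/-- the centralizer of the FC-centre of a linear group has finite index -/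
theorem FCc_cent (hρ : Function.Injective ρ) :
    (Subgroup.centralizer (FCc N : Set N)).FiniteIndex := by
  let r : N → Matrix (Fin n) (Fin n) K := fun x => (ρ x : Matrix (Fin n) (Fin n) K)
  have hr : Function.Injective r := fun x y h => hρ (Units.ext h)
  have hmul : ∀ x y, r (x * y) = r x * r y := fun x y => by
    show ((ρ (x * y) : GL (Fin n) K) : Matrix (Fin n) (Fin n) K) = _
    rw [map_mul]
    rfl
  obtain ⟨S, hS, hS'⟩ := (Submodule.fg_span_iff_fg_span_finset_subset (R := K)
    (r '' (FCc N : Set N))).1 (IsNoetherian.noetherian _)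
  classical
  obtain ⟨S₀, hS₀, rfl⟩ : ∃ S₀ : Finset N, (S₀ : Set N) ⊆ FCc N ∧ S₀.image r = S := by
    obtain ⟨u, hu, hu'⟩ := Finset.subset_set_image_iff.1 hS
    exact ⟨u, hu, hu'⟩
  have h1 : (⨅ s : S₀, Subgroup.centralizer {(s : N)}) ≤
      Subgroup.centralizer (FCc N : Set N) := by
    intro x hx
    rw [Subgroup.mem_iInf] at hx
    rw [Subgroup.mem_centralizer_iff]
    intro y hy
    have h2 : r y ∈ Submodule.span K ((S₀.image r : Finset _) : Set (Matrix (Fin n) (Fin n) K)) := by
      rw [← hS']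
      exact Submodule.subset_span ⟨y, hy, rfl⟩
    have h3 : ∀ m ∈ Submodule.span K ((S₀.image r : Finset _) : Set (Matrix (Fin n) (Fin n) K)),
        m * r x = r x * m := by
      intro m hm
      induction hm using Submodule.span_induction with
      | mem m hm =>
        obtain ⟨s, hs, rfl⟩ := Finset.mem_image.1 hm
        have := hx ⟨s, hs⟩
        rw [Subgroup.mem_centralizer_iff] at this
        rw [← hmul, ← hmul, this s rfl]
      | zero => rw [zero_mul, mul_zero]
      | add a b _ _ ha hb => rw [add_mul, mul_add, ha, hb]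
      | smul c a _ ha => rw [smul_mul_assoc, mul_smul_comm, ha]
    apply hr
    rw [hmul, hmul]
    exact h3 _ h2
  have h2 : (⨅ s : S₀, Subgroup.centralizer {(s : N)}).FiniteIndex :=
    Subgroup.finiteIndex_iInf fun s => hS₀ s.2
  exact Subgroup.finiteIndex_of_le h1

end fc

section krull

variable {K N : Type} [Field K] [Group N] {n : ℕ} (ρ : N →* GL (Fin n) K)

theorem krull (y : N) (hy : ∀ l, Jk ρ l y) (f : CR ρ) : ∃ u : CR ρ, (u : N → K) 1 = 1 ∧
    ∀ x : N, (u : N → K) x ≠ 0 → (f : N → K) (y⁻¹ * x * y) = (f : N → K) x := by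
  have h1 : (⟨_, conj_mem ρ y⁻¹ f.2⟩ - f : CR ρ) ∈
      (⨅ i : ℕ, mI ρ ^ i • ⊤ : Submodule (CR ρ) (CR ρ)) := by
    rw [Submodule.mem_iInf]
    intro i
    rw [smul_eq_mul, Ideal.mul_top]
    exact hy i f
  obtain ⟨r, hr⟩ := (Ideal.mem_iInf_smul_pow_eq_bot_iff (mI ρ) _).1 h1
  refine ⟨1 - r, ?_, fun x hx => ?_⟩
  · show 1 - ((r : CR ρ) : N → K) 1 = 1
    rw [(mem_mI ρ _).1 r.2, sub_zero]
  · have h2 : (((r : CR ρ) * (⟨_, conj_mem ρ y⁻¹ f.2⟩ - f : CR ρ) : CR ρ) : N → K) x =
        ((⟨_, conj_mem ρ y⁻¹ f.2⟩ - f : CR ρ) : N → K) x := by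
      rw [← smul_eq_mul, hr]
    have h3 : ((r : CR ρ) : N → K) x * ((f : N → K) (y⁻¹ * x * y⁻¹⁻¹) - (f : N → K) x) =
        (f : N → K) (y⁻¹ * x * y⁻¹⁻¹) - (f : N → K) x := h2
    have h4 : 1 - ((r : CR ρ) : N → K) x ≠ 0 := hx
    rw [inv_inv] at h3
    have h5 : (1 - ((r : CR ρ) : N → K) x) *
        ((f : N → K) (y⁻¹ * x * y) - (f : N → K) x) = 0 := by
      rw [sub_mul, one_mul, h3, sub_self]
    exact sub_eq_zero.1 ((mul_eq_zero.1 h5).resolve_left h4)

theorem fi (hρ : Function.Injective ρ) (y : N) (hy : ∀ l, Jk ρ l y) : y ∈ FCc N := by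
  classical
  choose u hu1 hu using fun s => krull ρ y hy ⟨ent ρ s, ent_mem ρ s⟩
  obtain ⟨w, hw⟩ : ∃ w : CR ρ, w = ∏ s, u s := ⟨_, rfl⟩
  have hwv : ∀ x : N, (w : N → K) x = ∏ s, (u s : N → K) x := by
    intro x
    rw [hw]
    exact map_prod (ev ρ x) u Finset.univ
  have hw1 : (w : N → K) 1 = 1 := by
    rw [hwv]
    exact Finset.prod_eq_one fun s _ => hu1 s
  have hcent : ∀ x : N, (w : N → K) x ≠ 0 → x ∈ Subgroup.centralizer {y} := by
    intro x hx
    have h1 : ∀ s, ent ρ s (y⁻¹ * x * y) = ent ρ s x := by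
      intro s
      refine hu s x fun h0 => hx ?_
      rw [hwv]
      exact Finset.prod_eq_zero (Finset.mem_univ s) h0
    have h2 : ρ (y⁻¹ * x * y) = ρ x := by
      apply Units.ext
      ext i j
      exact h1 (Sum.inl (i, j))
    have h3 := hρ h2
    have h4 : x * y = y * x := by
      have := congrArg (fun z => y * z) h3
      simpa [mul_assoc] using this
    rw [Subgroup.mem_centralizer_iff]
    rintro z hz
    rw [Set.mem_singleton_iff.1 hz]
    exact h4.symm
  -- quasicompactness
  let T : Set (CR ρ) := Set.range fun z : N => (⟨_, ltr_mem ρ z⁻¹ w.2⟩ : CR ρ)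
  obtain ⟨S, hS, hS'⟩ := (Submodule.fg_span_iff_fg_span_finset_subset (R := CR ρ) T).1
    (IsNoetherian.noetherian _)
  obtain ⟨Y, rfl⟩ : ∃ Y : Finset N, Y.image (fun z : N => (⟨_, ltr_mem ρ z⁻¹ w.2⟩ : CR ρ)) = S := by
    have h0 : (S : Set (CR ρ)) ⊆ (fun z : N => (⟨_, ltr_mem ρ z⁻¹ w.2⟩ : CR ρ)) '' Set.univ := by
      rw [Set.image_univ]
      exact hS
    obtain ⟨Y, -, hY⟩ := Finset.subset_set_image_iff.1 h0
    exact ⟨Y, hY⟩
  have hcov : ∀ x : N, ∃ z ∈ Y, (w : N → K) (z⁻¹ * x) ≠ 0 := by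
    intro x
    by_contra hcon
    push Not at hcon
    have h1 : Submodule.span (CR ρ) T ≤ RingHom.ker (ev ρ x) := by
      rw [hS']
      refine Submodule.span_le.2 ?_
      intro f hf
      obtain ⟨z, hz, rfl⟩ := Finset.mem_image.1 hf
      exact hcon z hz
    have h2 : (⟨_, ltr_mem ρ x⁻¹ w.2⟩ : CR ρ) ∈ RingHom.ker (ev ρ x) :=
      h1 (Submodule.subset_span ⟨x, rfl⟩)
    have h3 : (w : N → K) (x⁻¹ * x) = 0 := h2
    rw [inv_mul_cancel, hw1] at h3
    exact one_ne_zero h3
  have hfin : Finite (N ⧸ Subgroup.centralizer {y}) := by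
    refine Finite.of_surjective (fun z : Y => ((z : N) : N ⧸ Subgroup.centralizer {y})) ?_
    intro q
    obtain ⟨x, rfl⟩ := QuotientGroup.mk_surjective q
    obtain ⟨z, hz, hz'⟩ := hcov x
    exact ⟨⟨z, hz⟩, QuotientGroup.eq.2 (hcent _ hz')⟩
  exact Subgroup.finiteIndex_of_finite_quotient

end krull

end Pool.Agent.W2helper2.AK
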