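import Pool.Agent.W2helper2.AK.Sl

/-!
# The coordinate ring of a linear group and its jets at the identity
-/

set_option autoImplicit false
set_option linter.unusedSectionVars false

namespace Pool.Agent.W2helper2.AK

section cr

variable {K N : Type} [Field K] [Group N] {n : ℕ} (ρ : N →* GL (Fin n) K)

/-- the matrix entries of `x` and of `x⁻¹` -/
def ent : (Fin n × Fin n) ⊕ (Fin n × Fin n) → N → K
  | Sum.inl p => fun x => (ρ x : Matrix (Fin n) (Fin n) K) p.1 p.2
  | Sum.inr p => fun x => (ρ x⁻¹ : Matrix (Fin n) (Fin n) K) p.1 p.2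

/-- the coordinate ring: the functions generated by the matrix entries -/
def CR : Subalgebra K (N → K) := Algebra.adjoin K (Set.range (ent ρ))

theorem ent_mem (s : (Fin n × Fin n) ⊕ (Fin n × Fin n)) : ent ρ s ∈ CR ρ :=
  Algebra.subset_adjoin ⟨s, rfl⟩

instance noeth : IsNoetherianRing (CR ρ) :=
  isNoetherianRing_of_fg (Subalgebra.fg_def.2 ⟨Set.range (ent ρ), Set.finite_range _, rfl⟩)

theorem inv_mem {f : N → K} (hf : f ∈ CR ρ) : (fun x => f x⁻¹) ∈ CR ρ := by
  unfold CR at hf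
  induction hf using Algebra.adjoin_induction with
  | mem f hf =>
    obtain ⟨s, rfl⟩ := hf
    rcases s with p | p
    · exact ent_mem ρ (Sum.inr p)
    · have h : (fun x => ent ρ (Sum.inr p) x⁻¹) = ent ρ (Sum.inl p) := by
        funext x
        show (ρ x⁻¹⁻¹ : Matrix (Fin n) (Fin n) K) p.1 p.2 = _
        rw [inv_inv]
        rfl
      rw [h]
      exact ent_mem ρ (Sum.inl p)
  | algebraMap r => exact (CR ρ).algebraMap_mem r
  | add f g _ _ hf hg => exact (CR ρ).add_mem hf hg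
  | mul f g _ _ hf hg => exact (CR ρ).mul_mem hf hg

/-- the coaction for the conjugation -/
theorem coact {f : N → K} (hf : f ∈ CR ρ) : ∃ (ι : Type) (_ : Fintype ι) (a b : ι → CR ρ),
    ∀ y x : N, f (y * x * y⁻¹) = ∑ i, (a i : N → K) y * (b i : N → K) x := by
  unfold CR at hf
  induction hf using Algebra.adjoin_induction with
  | mem f hf =>
    obtain ⟨s, rfl⟩ := hf
    rcases s with p | p
    · refine ⟨Fin n × Fin n, inferInstance,
        fun q => ⟨_, (CR ρ).mul_mem (ent_mem ρ (Sum.inl (p.1, q.1))) (ent_mem ρ (Sum.inr (q.2, p.2)))⟩,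
        fun q => ⟨_, ent_mem ρ (Sum.inl q)⟩, fun y x => ?_⟩
      show (ρ (y * x * y⁻¹) : Matrix (Fin n) (Fin n) K) p.1 p.2 = ∑ q : Fin n × Fin n,
        ((ρ y : Matrix (Fin n) (Fin n) K) p.1 q.1 * (ρ y⁻¹ : Matrix (Fin n) (Fin n) K) q.2 p.2) *
          (ρ x : Matrix (Fin n) (Fin n) K) q.1 q.2
      rw [map_mul, map_mul, Units.val_mul, Units.val_mul, Matrix.mul_apply, Fintype.sum_prod_type,
        Finset.sum_comm]
      refine Finset.sum_congr rfl fun j _ => ?_
      rw [Matrix.mul_apply, Finset.sum_mul]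
      refine Finset.sum_congr rfl fun i _ => ?_
      ring
    · refine ⟨Fin n × Fin n, inferInstance,
        fun q => ⟨_, (CR ρ).mul_mem (ent_mem ρ (Sum.inl (p.1, q.1))) (ent_mem ρ (Sum.inr (q.2, p.2)))⟩,
        fun q => ⟨_, ent_mem ρ (Sum.inr q)⟩, fun y x => ?_⟩
      show (ρ (y * x * y⁻¹)⁻¹ : Matrix (Fin n) (Fin n) K) p.1 p.2 = ∑ q : Fin n × Fin n,
        ((ρ y : Matrix (Fin n) (Fin n) K) p.1 q.1 * (ρ y⁻¹ : Matrix (Fin n) (Fin n) K) q.2 p.2) *
          (ρ x⁻¹ : Matrix (Fin n) (Fin n) K) q.1 q.2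
      have h1 : (y * x * y⁻¹)⁻¹ = y * x⁻¹ * y⁻¹ := by group
      rw [h1, map_mul, map_mul, Units.val_mul, Units.val_mul, Matrix.mul_apply,
        Fintype.sum_prod_type, Finset.sum_comm]
      refine Finset.sum_congr rfl fun j _ => ?_
      rw [Matrix.mul_apply, Finset.sum_mul]
      refine Finset.sum_congr rfl fun i _ => ?_
      ring
  | algebraMap r =>
    refine ⟨Unit, inferInstance, fun _ => algebraMap K _ r, fun _ => 1, fun y x => ?_⟩
    rw [Fintype.sum_unique]
    show r = r * 1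
    rw [mul_one]
  | add f g _ _ hf hg =>
    obtain ⟨ι, _, a, b, h⟩ := hf
    obtain ⟨κ, _, a', b', h'⟩ := hg
    refine ⟨ι ⊕ κ, inferInstance, Sum.elim a a', Sum.elim b b', fun y x => ?_⟩
    rw [Fintype.sum_sum_type]
    exact congrArg₂ (· + ·) (h y x) (h' y x)
  | mul f g _ _ hf hg =>
    obtain ⟨ι, _, a, b, h⟩ := hf
    obtain ⟨κ, _, a', b', h'⟩ := hg
    refine ⟨ι × κ, inferInstance, fun q => a q.1 * a' q.2, fun q => b q.1 * b' q.2,
      fun y x => ?_⟩
    rw [Fintype.sum_prod_type]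
    show f (y * x * y⁻¹) * g (y * x * y⁻¹) = ∑ i, ∑ j, ((a i : N → K) y * (a' j : N → K) y) *
      ((b i : N → K) x * (b' j : N → K) x)
    rw [h, h', Finset.sum_mul_sum]
    refine Finset.sum_congr rfl fun i _ => Finset.sum_congr rfl fun j _ => ?_
    ring

/-- conjugation by `y⁻¹` on the coordinate ring -/
theorem conj_mem (y : N) {f : N → K} (hf : f ∈ CR ρ) : (fun x => f (y * x * y⁻¹)) ∈ CR ρ := by
  obtain ⟨ι, _, a, b, h⟩ := coact ρ hf
  have h1 : (fun x => f (y * x * y⁻¹)) = ∑ i, (a i : N → K) y • (b i : N → K) := by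
    funext x
    rw [Finset.sum_apply, h]
    rfl
  rw [h1]
  exact (CR ρ).sum_mem fun i _ => (CR ρ).smul_mem (b i).2 _

/-- left translations -/
theorem ltr_mem (y : N) {f : N → K} (hf : f ∈ CR ρ) : (fun x => f (y * x)) ∈ CR ρ := by
  unfold CR at hf
  induction hf using Algebra.adjoin_induction with
  | mem f hf =>
    obtain ⟨s, rfl⟩ := hf
    rcases s with p | p
    · have h : (fun x => ent ρ (Sum.inl p) (y * x)) =
          ∑ i, (ρ y : Matrix (Fin n) (Fin n) K) p.1 i • ent ρ (Sum.inl (i, p.2)) := by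
        funext x
        rw [Finset.sum_apply]
        show (ρ (y * x) : Matrix (Fin n) (Fin n) K) p.1 p.2 = _
        rw [map_mul, Units.val_mul, Matrix.mul_apply]
        rfl
      rw [h]
      exact (CR ρ).sum_mem fun i _ => (CR ρ).smul_mem (ent_mem ρ _) _
    · have h : (fun x => ent ρ (Sum.inr p) (y * x)) =
          ∑ i, (ρ y⁻¹ : Matrix (Fin n) (Fin n) K) i p.2 • ent ρ (Sum.inr (p.1, i)) := by
        funext x
        rw [Finset.sum_apply]
        show (ρ (y * x)⁻¹ : Matrix (Fin n) (Fin n) K) p.1 p.2 = _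
        rw [mul_inv_rev, map_mul, Units.val_mul, Matrix.mul_apply]
        refine Finset.sum_congr rfl fun i _ => ?_
        exact mul_comm _ _
      rw [h]
      exact (CR ρ).sum_mem fun i _ => (CR ρ).smul_mem (ent_mem ρ _) _
  | algebraMap r => exact (CR ρ).algebraMap_mem r
  | add f g _ _ hf hg => exact (CR ρ).add_mem hf hg
  | mul f g _ _ hf hg => exact (CR ρ).mul_mem hf hg

/-! ### jets -/

/-- evaluation at a point -/
def ev (x : N) : CR ρ →+* K := (Pi.evalRingHom (fun _ : N => K) x).comp (CR ρ).val.toRingHom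

@[simp] theorem ev_apply (x : N) (f : CR ρ) : ev ρ x f = (f : N → K) x := rfl

/-- the functions which vanish at the identity -/
def mI : Ideal (CR ρ) := RingHom.ker (ev ρ 1)

theorem mem_mI (f : CR ρ) : f ∈ mI ρ ↔ (f : N → K) 1 = 0 := Iff.rfl

theorem jets_finite (k : ℕ) : Module.Finite K (CR ρ ⧸ mI ρ ^ k) := by
  have key : ∃ U : Submodule K (CR ρ), U.FG ∧ U ⊔ (mI ρ ^ k).restrictScalars K = ⊤ := by
    induction k with
    | zero =>
      refine ⟨⊥, Submodule.fg_bot, ?_⟩
      rw [pow_zero, Ideal.one_eq_top, bot_sup_eq]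
      rfl
    | succ k ih =>
      obtain ⟨U, hU, hU'⟩ := ih
      obtain ⟨S, hS⟩ : (mI ρ ^ k).FG := IsNoetherian.noetherian _
      refine ⟨U ⊔ Submodule.span K (S : Set (CR ρ)), hU.sup ⟨S, rfl⟩, ?_⟩
      have h1 : (mI ρ ^ k).restrictScalars K ≤
          Submodule.span K (S : Set (CR ρ)) ⊔ (mI ρ ^ (k + 1)).restrictScalars K := by
        intro f hf
        have hf' : f ∈ Ideal.span (S : Set (CR ρ)) := by
          rw [show Ideal.span (S : Set (CR ρ)) = mI ρ ^ k from hS]
          exact hf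
        induction hf' using Submodule.span_induction with
        | mem x hx => exact Submodule.mem_sup_left (Submodule.subset_span hx)
        | zero => exact Submodule.zero_mem _
        | add x y hx hy ihx ihy =>
          have hx' : x ∈ mI ρ ^ k := hS ▸ hx
          have hy' : y ∈ mI ρ ^ k := hS ▸ hy
          exact Submodule.add_mem _ (ihx hx') (ihy hy')
        | smul a x hx ihx =>
          have hx' : x ∈ mI ρ ^ k := hS ▸ hx
          have ha : a = algebraMap K _ ((a : N → K) 1) + (a - algebraMap K _ ((a : N → K) 1)) := by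
            ring
          have ha' : a - algebraMap K (CR ρ) ((a : N → K) 1) ∈ mI ρ := by
            rw [mem_mI]
            show (a : N → K) 1 - (a : N → K) 1 = 0
            exact sub_self _
          rw [ha, add_smul]
          refine Submodule.add_mem _ ?_ ?_
          · rw [algebraMap_smul]
            exact Submodule.smul_mem _ _ (ihx hx')
          · refine Submodule.mem_sup_right ?_
            show (a - algebraMap K (CR ρ) ((a : N → K) 1)) * x ∈ mI ρ ^ (k + 1)
            rw [pow_succ']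
            exact Ideal.mul_mem_mul ha' hx'
      rw [eq_top_iff, ← hU', sup_assoc]
      exact sup_le le_sup_left (h1.trans le_sup_right)
  obtain ⟨U, hU, hU'⟩ := key
  have h2 : (⊤ : Submodule K (CR ρ ⧸ mI ρ ^ k)) =
      U.map (Ideal.Quotient.mkₐ K (mI ρ ^ k)).toLinearMap := by
    symm
    rw [eq_top_iff]
    rintro x -
    obtain ⟨f, rfl⟩ := Ideal.Quotient.mk_surjective x
    have hf : f ∈ U ⊔ (mI ρ ^ k).restrictScalars K := by rw [hU']; trivial
    obtain ⟨u, hu, v, hv, rfl⟩ := Submodule.mem_sup.1 hf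
    refine ⟨u, hu, ?_⟩
    show Ideal.Quotient.mk (mI ρ ^ k) u = Ideal.Quotient.mk (mI ρ ^ k) (u + v)
    rw [map_add, Ideal.Quotient.eq_zero_iff_mem.2 hv, add_zero]
  refine ⟨?_⟩
  rw [h2]
  exact hU.map _

/-- `y` acts trivially on the jets of order `k` -/
def Jk (k : ℕ) (y : N) : Prop :=
  ∀ f : CR ρ, (⟨_, conj_mem ρ y⁻¹ f.2⟩ - f : CR ρ) ∈ mI ρ ^ k

theorem Jk_mono {k l : ℕ} (h : k ≤ l) {y : N} (hy : Jk ρ l y) : Jk ρ k y := fun f =>
  Ideal.pow_le_pow_right h (hy f)

/-- the functions which vanish on the elements that act trivially on the jets of order `k` -/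
def Ik (k : ℕ) : Ideal (CR ρ) where
  carrier := {a | ∀ y, Jk ρ k y → (a : N → K) y = 0}
  add_mem' := by
    intro a b ha hb y hy
    show (a : N → K) y + (b : N → K) y = 0
    rw [ha y hy, hb y hy, add_zero]
  zero_mem' := fun _ _ => rfl
  smul_mem' := by
    intro c a ha y hy
    show (c : N → K) y * (a : N → K) y = 0
    rw [ha y hy, mul_zero]

theorem Ik_mono : Monotone (Ik ρ) := fun _ _ h _ ha y hy => ha y (Jk_mono ρ h hy)

/-- the elements that act trivially on the jets of order `k` form a closed set -/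
theorem closed (k : ℕ) (y : N) (hy : ¬ Jk ρ k y) : ∃ a ∈ Ik ρ k, (a : N → K) y ≠ 0 := by
  unfold Jk at hy
  push Not at hy
  obtain ⟨f, hf⟩ := hy
  obtain ⟨ι, _, a, b, h⟩ := coact ρ f.2
  obtain ⟨l, hl', hl⟩ := Submodule.exists_le_ker_of_notMem
    (p := (mI ρ ^ k).restrictScalars K) (v := (⟨_, conj_mem ρ y⁻¹ f.2⟩ - f : CR ρ)) hf
  let φ : CR ρ := ∑ i, l (b i) • (⟨_, inv_mem ρ (a i).2⟩ : CR ρ) - algebraMap K _ (l f)
  have hφ : ∀ z : N, (φ : N → K) z = l (⟨_, conj_mem ρ z⁻¹ f.2⟩ - f : CR ρ) := by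
    intro z
    have h1 : (⟨_, conj_mem ρ z⁻¹ f.2⟩ : CR ρ) = ∑ i, (a i : N → K) z⁻¹ • b i := by
      apply Subtype.ext
      funext x
      show (f : N → K) (z⁻¹ * x * z⁻¹⁻¹) = _
      rw [h]
      rw [AddSubmonoidClass.coe_finsetSum, Finset.sum_apply]
      rfl
    rw [map_sub, h1, map_sum]
    show (↑(∑ i, l (b i) • (⟨_, inv_mem ρ (a i).2⟩ : CR ρ)) : N → K) z - l f = _
    rw [AddSubmonoidClass.coe_finsetSum, Finset.sum_apply]
    congr 1
    refine Finset.sum_congr rfl fun i _ => ?_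
    rw [map_smul]
    exact mul_comm _ _
  refine ⟨φ, fun z hz => ?_, ?_⟩
  · rw [hφ]
    exact hl (hz f)
  · rw [hφ]
    exact hl'

/-- the kernels of the actions on the jets stabilize -/
theorem stab : ∃ k : ℕ, ∀ y, Jk ρ k y → ∀ l, Jk ρ l y := by
  obtain ⟨k, hk⟩ := monotone_stabilizes_iff_noetherian.2 (noeth ρ) ⟨Ik ρ, Ik_mono ρ⟩
  refine ⟨k, fun y hy l => ?_⟩
  by_contra hl
  have h1 : ¬ Jk ρ (max k l) y := fun h => hl (Jk_mono ρ (le_max_right _ _) h)
  obtain ⟨a, ha, ha'⟩ := closed ρ _ y h1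
  have h2 : Ik ρ k = Ik ρ (max k l) := hk _ (le_max_left _ _)
  rw [← h2] at ha
  exact ha' (ha y hy)

end cr

end Pool.Agent.W2helper2.AK
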