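import Pool.Agent.W2helper2.AK.Com

/-!
# Commensurating elements that act trivially on the tangent space
-/

set_option autoImplicit false
set_option linter.unusedSectionVars false

namespace Pool.Agent.W2helper2.AK

open Pool.Agent.W2helper34.GT (exists_GL)

/-! ### algebra -/

section alg

variable {K R : Type} [Field K] [CommRing R] [Algebra K R] (e : R →ₐ[K] K)

/-- the kernel of the augmentation -/
abbrev II : Ideal R := RingHom.ker e

theorem mem_II {a : R} : a ∈ II e ↔ e a = 0 := Iff.rfl

theorem sub_mem_II (a : R) : a - algebraMap K R (e a) ∈ II e := by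
  rw [mem_II, map_sub, AlgHom.commutes]
  exact sub_self _

theorem jets_fin [IsNoetherianRing R] (k : ℕ) : Module.Finite K (R ⧸ II e ^ k) := by
  have key : ∃ U : Submodule K R, U.FG ∧ U ⊔ (II e ^ k).restrictScalars K = ⊤ := by
    induction k with
    | zero =>
      refine ⟨⊥, Submodule.fg_bot, ?_⟩
      rw [pow_zero, Ideal.one_eq_top, bot_sup_eq]
      rfl
    | succ k ih =>
      obtain ⟨U, hU, hU'⟩ := ih
      obtain ⟨S, hS⟩ : (II e ^ k).FG := IsNoetherian.noetherian _
      refine ⟨U ⊔ Submodule.span K (S : Set R), hU.sup ⟨S, rfl⟩, ?_⟩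
      have h1 : (II e ^ k).restrictScalars K ≤
          Submodule.span K (S : Set R) ⊔ (II e ^ (k + 1)).restrictScalars K := by
        intro f hf
        have hf' : f ∈ Ideal.span (S : Set R) := by
          rw [show Ideal.span (S : Set R) = II e ^ k from hS]
          exact hf
        induction hf' using Submodule.span_induction with
        | mem x hx => exact Submodule.mem_sup_left (Submodule.subset_span hx)
        | zero => exact Submodule.zero_mem _
        | add x y hx hy ihx ihy =>
          have hx' : x ∈ II e ^ k := hS ▸ hx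
          have hy' : y ∈ II e ^ k := hS ▸ hy
          exact Submodule.add_mem _ (ihx hx') (ihy hy')
        | smul a x hx ihx =>
          have hx' : x ∈ II e ^ k := hS ▸ hx
          have ha : a = algebraMap K _ (e a) + (a - algebraMap K _ (e a)) := by ring
          rw [ha, add_smul]
          refine Submodule.add_mem _ ?_ ?_
          · rw [algebraMap_smul]
            exact Submodule.smul_mem _ _ (ihx hx')
          · refine Submodule.mem_sup_right ?_
            show (a - algebraMap K R (e a)) * x ∈ II e ^ (k + 1)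
            rw [pow_succ']
            exact Ideal.mul_mem_mul (sub_mem_II e a) hx'
      rw [eq_top_iff, ← hU', sup_assoc]
      exact sup_le le_sup_left (h1.trans le_sup_right)
  obtain ⟨U, hU, hU'⟩ := key
  have h2 : (⊤ : Submodule K (R ⧸ II e ^ k)) =
      U.map (Ideal.Quotient.mkₐ K (II e ^ k)).toLinearMap := by
    symm
    rw [eq_top_iff]
    rintro x -
    obtain ⟨f, rfl⟩ := Ideal.Quotient.mk_surjective x
    have hf : f ∈ U ⊔ (II e ^ k).restrictScalars K := by rw [hU']; trivial
    obtain ⟨u, hu, v, hv, rfl⟩ := Submodule.mem_sup.1 hf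
    refine ⟨u, hu, ?_⟩
    show Ideal.Quotient.mk (II e ^ k) u = Ideal.Quotient.mk (II e ^ k) (u + v)
    rw [map_add, Ideal.Quotient.eq_zero_iff_mem.2 hv, add_zero]
  refine ⟨?_⟩
  rw [h2]
  exact hU.map _

theorem pow_map {t : R →ₐ[K] R} (ht : ∀ a, e (t a) = e a) (l : ℕ) {b : R} (hb : b ∈ II e ^ l) :
    t b ∈ II e ^ l := by
  have h1 : (II e).map (t : R →+* R) ≤ II e := by
    rw [Ideal.map_le_iff_le_comap]
    intro a ha
    show e (t a) = 0
    rw [ht]
    exact ha
  have h2 : (II e ^ l).map (t : R →+* R) ≤ II e ^ l := by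
    rw [Ideal.map_pow]
    exact Ideal.pow_right_mono h1 l
  exact h2 (Ideal.mem_map_of_mem (t : R →+* R) hb)

theorem sq_pow {s : R →ₐ[K] R} (hs : ∀ a, e (s a) = e a)
    (hs2 : ∀ a ∈ II e, s a - 2 * a ∈ II e ^ 2) (l : ℕ) {b : R} (hb : b ∈ II e ^ l) :
    s b - 2 ^ l * b ∈ II e ^ (l + 1) := by
  induction l generalizing b with
  | zero =>
    rw [pow_zero, one_mul, zero_add, pow_one, mem_II, map_sub, hs, sub_self]
  | succ l ih =>
    rw [pow_succ] at hb
    refine Submodule.mul_induction_on hb ?_ ?_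
    · intro x hx y hy
      have h1 : s (x * y) - 2 ^ (l + 1) * (x * y) =
          s x * (s y - 2 * y) + (s x - 2 ^ l * x) * (2 * y) := by
        rw [map_mul]
        ring
      rw [h1]
      refine Ideal.add_mem _ ?_ ?_
      · have h2 := Ideal.mul_mem_mul (pow_map e hs l hx) (hs2 y hy)
        rw [← pow_add] at h2
        exact h2
      · have h2 := Ideal.mul_mem_mul (ih hx) (Ideal.mul_mem_left _ (2 : R) hy)
        rw [← pow_succ] at h2
        exact h2
    · intro x y hx hy
      have h1 : s (x + y) - 2 ^ (l + 1) * (x + y) =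
          (s x - 2 ^ (l + 1) * x) + (s y - 2 ^ (l + 1) * y) := by
        rw [map_add]
        ring
      rw [h1]
      exact Ideal.add_mem _ hx hy

/-- an automorphism commuting with the squaring map which is trivial on the tangent space is trivial
on all jets -/
theorem jump [CharZero K] {s t : R →ₐ[K] R} (hs : ∀ a, e (s a) = e a)
    (hs2 : ∀ a ∈ II e, s a - 2 * a ∈ II e ^ 2) (ht : ∀ a, e (t a) = e a)
    (hts : ∀ a, t (s a) = s (t a)) (ht2 : ∀ a, t a - a ∈ II e ^ 2) (l : ℕ) (a : R) :
    t a - a ∈ II e ^ l := by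
  have key : ∀ l : ℕ, ∀ a, t a - a ∈ II e ^ (l + 2) := by
    intro l
    induction l with
    | zero => exact ht2
    | succ l ih =>
      intro a
      -- products
      have h1 : ∀ r ∈ II e ^ 2, t r - r ∈ II e ^ (l + 3) := by
        intro r hr
        rw [pow_two] at hr
        refine Submodule.mul_induction_on hr ?_ ?_
        · intro x hx y hy
          have h2 : t (x * y) - x * y = (t x - x) * t y + (t y - y) * x := by
            rw [map_mul]
            ring
          rw [h2]
          have hty : t y ∈ II e := by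
            rw [mem_II, ht]
            exact hy
          refine Ideal.add_mem _ ?_ ?_
          · have h3 := Ideal.mul_mem_mul (ih x) hty
            rw [← pow_succ] at h3
            exact h3
          · have h3 := Ideal.mul_mem_mul (ih y) hx
            rw [← pow_succ] at h3
            exact h3
        · intro x y hx hy
          have h2 : t (x + y) - (x + y) = (t x - x) + (t y - y) := by
            rw [map_add]
            ring
          rw [h2]
          exact Ideal.add_mem _ hx hy
      obtain ⟨a', ha'⟩ : ∃ a', a' = a - algebraMap K R (e a) := ⟨_, rfl⟩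
      have ha'I : a' ∈ II e := ha' ▸ sub_mem_II e a
      have h2 : t a - a = t a' - a' := by
        rw [ha', map_sub, AlgHom.commutes]
        ring
      rw [h2]
      obtain ⟨d, hd⟩ : ∃ d, d = t a' - a' := ⟨_, rfl⟩
      have hdl : d ∈ II e ^ (l + 2) := hd ▸ ih a'
      have h3 := h1 _ (hs2 a' ha'I)
      have h4 : t (s a' - 2 * a') - (s a' - 2 * a') = s d - 2 * d := by
        rw [hd, map_sub, map_sub, map_mul, map_ofNat, hts]
        ring
      rw [h4] at h3
      have h5 := sq_pow e hs hs2 (l + 2) hdl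
      have h6 : (2 ^ (l + 2) - 2) * d ∈ II e ^ (l + 3) := by
        have h7 := Ideal.sub_mem _ h3 h5
        have h8 : s d - 2 * d - (s d - 2 ^ (l + 2) * d) = (2 ^ (l + 2) - 2) * d := by ring
        rw [h8] at h7
        exact h7
      have h7 : (2 ^ (l + 2) - 2 : K) ≠ 0 := by
        have h8 : (2 ^ (l + 2) - 2 : K) = ((2 ^ (l + 2) - 2 : ℤ) : K) := by push_cast; ring
        rw [h8, Int.cast_ne_zero]
        have h9 : (2 : ℤ) ^ (l + 2) = 4 * 2 ^ l := by ring
        have h10 : (0 : ℤ) < 2 ^ l := by positivity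
        omega
      have h8 : d = algebraMap K R (2 ^ (l + 2) - 2 : K)⁻¹ * ((2 ^ (l + 2) - 2) * d) := by
        have h9 : (2 ^ (l + 2) - 2 : R) = algebraMap K R (2 ^ (l + 2) - 2 : K) := by
          rw [map_sub, map_pow, map_ofNat]
        rw [h9, ← mul_assoc, ← map_mul, inv_mul_cancel₀ h7, map_one, one_mul]
      rw [← hd, h8]
      exact Ideal.mul_mem_left _ _ h6
  rcases l with _ | _ | l
  · rw [pow_zero, Ideal.one_eq_top]
    trivial
  · rw [zero_add]
    exact Ideal.pow_le_pow_right (by norm_num) (key 0 a)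
  · exact key l a

theorem krull_abs [IsNoetherianRing R] {a : R} (h : ∀ l, a ∈ II e ^ l) :
    ∃ u : R, e u = 1 ∧ u * a = 0 := by
  have h1 : a ∈ (⨅ i : ℕ, II e ^ i • ⊤ : Submodule R R) := by
    rw [Submodule.mem_iInf]
    intro i
    rw [smul_eq_mul, Ideal.mul_top]
    exact h i
  obtain ⟨r, hr⟩ := (Ideal.mem_iInf_smul_pow_eq_bot_iff (II e) _).1 h1
  refine ⟨1 - r, ?_, ?_⟩
  · rw [map_sub, map_one, (mem_II e).1 r.2, sub_zero]
  · rw [sub_mul, one_mul, ← smul_eq_mul, hr, sub_self]

/-- the action on the jets -/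
theorem jet_GL [IsNoetherianRing R] {H : Type} [Group H] (τ : H →* (R →ₐ[K] R))
    (ht : ∀ g a, e (τ g a) = e a) (k : ℕ) :
    ∃ (d : ℕ) (f : H →* GL (Fin d) K), ∀ g, f g = 1 → ∀ a, τ g a - a ∈ II e ^ k := by
  have hfin := jets_fin e k
  let T : H →* Module.End K (R ⧸ II e ^ k) :=
    { toFun := fun g => (Ideal.quotientMapₐ (II e ^ k) (τ g) (fun a ha =>
        pow_map e (ht g) k ha)).toLinearMap
      map_one' := by
        apply LinearMap.ext
        intro w
        obtain ⟨a, rfl⟩ := Ideal.Quotient.mk_surjective w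
        show Ideal.Quotient.mk _ (τ 1 a) = Ideal.Quotient.mk _ a
        rw [map_one]
        rfl
      map_mul' := by
        intro g h
        apply LinearMap.ext
        intro w
        obtain ⟨a, rfl⟩ := Ideal.Quotient.mk_surjective w
        show Ideal.Quotient.mk _ (τ (g * h) a) = Ideal.Quotient.mk _ (τ g (τ h a))
        rw [map_mul]
        rfl }
  obtain ⟨d, f, hf⟩ := exists_GL T
  refine ⟨d, f, fun g hg a => ?_⟩
  have h1 := LinearMap.congr_fun (hf g hg) (Ideal.Quotient.mk _ a)
  have h2 : Ideal.Quotient.mk (II e ^ k) (τ g a) = Ideal.Quotient.mk _ a := h1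
  exact Ideal.Quotient.eq.1 h2

end alg

/-! ### a covering argument -/

section cover

variable {K N : Type} [Field K] [Group N] {n : ℕ} (ρ : N →* GL (Fin n) K)

theorem cover (w : CR ρ) (hw1 : (w : N → K) 1 = 1) (Z : Subgroup N)
    (hcent : ∀ x : N, (w : N → K) x ≠ 0 → x ∈ Z) : Z.FiniteIndex := by
  classical
  let T : Set (CR ρ) := Set.range fun z : N => (⟨_, ltr_mem ρ z⁻¹ w.2⟩ : CR ρ)
  obtain ⟨S, hS, hS'⟩ := (Submodule.fg_span_iff_fg_span_finset_subset (R := CR ρ) T).1
    (IsNoetherian.noetherian _)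
  obtain ⟨Y, rfl⟩ : ∃ Y : Finset N, Y.image (fun z : N => (⟨_, ltr_mem ρ z⁻¹ w.2⟩ : CR ρ)) = S := by
    have h0 : (S : Set (CR ρ)) ⊆ (fun z : N => (⟨_, ltr_mem ρ z⁻¹ w.2⟩ : CR ρ)) '' Set.univ := by
      rw [Set.image_univ]
      exact hS
    obtain ⟨Y, -, hY⟩ := Finset.subset_set_image_iff.1 h0
    exact ⟨Y, hY⟩
  have hcov : ∀ x : N, ∃ z ∈ Y, (w : N → K) (z⁻¹ * x) ≠ 0 := by
    intro x
    by_contra hcon
    push Not at hcon
    have h1 : Submodule.span (CR ρ) T ≤ RingHom.ker (ev ρ x) := by
      rw [hS']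
      refine Submodule.span_le.2 ?_
      intro f hf
      obtain ⟨z, hz, rfl⟩ := Finset.mem_image.1 hf
      exact hcon z hz
    have h2 : (⟨_, ltr_mem ρ x⁻¹ w.2⟩ : CR ρ) ∈ RingHom.ker (ev ρ x) :=
      h1 (Submodule.subset_span ⟨x, rfl⟩)
    have h3 : (w : N → K) (x⁻¹ * x) = 0 := h2
    rw [inv_mul_cancel, hw1] at h3
    exact one_ne_zero h3
  have hfin : Finite (N ⧸ Z) := by
    refine Finite.of_surjective (fun z : Y => ((z : N) : N ⧸ Z)) ?_
    intro q
    obtain ⟨x, rfl⟩ := QuotientGroup.mk_surjective q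
    obtain ⟨z, hz, hz'⟩ := hcov x
    exact ⟨⟨z, hz⟩, QuotientGroup.eq.2 (hcent _ hz')⟩
  exact Subgroup.finiteIndex_of_finite_quotient

/-- restriction to a subgroup -/
theorem res_mem {N' : Type} [Group N'] (i : N' →* N) {f : N → K} (hf : f ∈ CR ρ) :
    (fun x => f (i x)) ∈ CR (ρ.comp i) := by
  unfold CR at hf
  induction hf using Algebra.adjoin_induction with
  | mem f hf =>
    obtain ⟨s, rfl⟩ := hf
    have h : (fun x => ent ρ s (i x)) = ent (ρ.comp i) s := by
      funext x
      rcases s with p | p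
      · rfl
      · show (ρ (i x)⁻¹ : Matrix (Fin n) (Fin n) K) p.1 p.2 =
          (ρ (i x⁻¹) : Matrix (Fin n) (Fin n) K) p.1 p.2
        rw [map_inv i]
    rw [h]
    exact ent_mem _ s
  | algebraMap r => exact (CR _).algebraMap_mem r
  | add f g _ _ hf hg => exact (CR _).add_mem hf hg
  | mul f g _ _ hf hg => exact (CR _).mul_mem hf hg

end cover

end Pool.Agent.W2helper2.AK
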