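import Pool.Agent.W2helper34.GT.Fin
import Pool.Agent.Y430.SS.Lf

/-!
# Semilinear groups and extensions with finite kernels
-/

set_option autoImplicit false
set_option linter.unusedSectionVars false

namespace Pool.Agent.W2helper2.AK

open Pool.Agent.Y110.FJ (ClosedE)
open Pool.Agent.W2helper34.GT (solv_ext C_congr C_quot_of_hom exists_GL)

/-! ### finite kernels -/

section fin

variable {C : ∀ (G : Type) [Group G], Prop}

/-- extensions with a finite kernel -/
theorem fin_ext (hC : ClosedE C) (hS : ∀ (G : Type) [Group G], Group.IsSolvable G → C G) {G : Type}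
    [Group G] (N : Subgroup G) [N.Normal] [Finite N] (hQ : C (G ⧸ N)) : C G := by
  have hfin : Finite (MulAut N) := Finite.of_injective (fun e : MulAut N => (e : N → N))
    DFunLike.coe_injective
  obtain ⟨L, hL⟩ : ∃ L : Subgroup G, L = (MulAut.conjNormal : G →* MulAut N).ker := ⟨_, rfl⟩
  have hLf : L.FiniteIndex := by
    rw [hL]
    exact Subgroup.finiteIndex_ker _
  refine hC.base.finiteIndex G L hLf ?_
  have hcomm : Group.IsSolvable ↥(N.subgroupOf L) := by
    refine Group.isSolvable_of_comm fun a b => ?_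
    apply Subtype.ext
    apply Subtype.ext
    have ha : (MulAut.conjNormal : G →* MulAut N) ((a : L) : G) = 1 :=
      (hL ▸ (a : L).2 : ((a : L) : G) ∈ (MulAut.conjNormal : G →* MulAut N).ker)
    have hb : ((b : L) : G) ∈ N := b.2
    have h1 : MulAut.conjNormal ((a : L) : G) (⟨_, hb⟩ : N) = ⟨_, hb⟩ := by rw [ha]; rfl
    have h2 := congrArg Subtype.val h1
    rw [MulAut.conjNormal_apply] at h2
    show ((a : L) : G) * ((b : L) : G) = ((b : L) : G) * ((a : L) : G)
    exact mul_inv_eq_iff_eq_mul.mp h2
  refine solv_ext hC hS (N.subgroupOf L) hcomm ?_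
  refine C_quot_of_hom hC _ ((QuotientGroup.mk' N).comp L.subtype) hQ ?_ ?_
  · intro x hx
    exact (QuotientGroup.eq_one_iff _).2 hx
  · intro x hx
    exact (QuotientGroup.eq_one_iff (x : G)).1 hx

/-- extensions with a kernel which is virtually abelian -/
theorem va_ext (hC : ClosedE C) (hS : ∀ (G : Type) [Group G], Group.IsSolvable G → C G) {G : Type}
    [Group G] (D₀ D : Subgroup G) [D₀.Normal] [D.Normal] (hle : D₀ ≤ D) (hfi : D₀.relIndex D ≠ 0)
    (hab : Group.IsSolvable D₀) (hQ : C (G ⧸ D)) : C G := by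
  refine solv_ext hC hS D₀ hab ?_
  have hn : (D.map (QuotientGroup.mk' D₀)).Normal :=
    Subgroup.Normal.map inferInstance _ (QuotientGroup.mk'_surjective D₀)
  have hf : Finite (D.map (QuotientGroup.mk' D₀)) := by
    have h1 : Nat.card ↥(D.map (QuotientGroup.mk' D₀)) ≠ 0 := by
      rw [← Subgroup.relIndex_bot_left, ← Subgroup.relIndex_comap, MonoidHom.comap_bot,
        QuotientGroup.ker_mk']
      exact hfi
    exact Nat.finite_of_card_ne_zero h1
  refine fin_ext hC hS (D.map (QuotientGroup.mk' D₀)) ?_
  have e : (G ⧸ D₀) ⧸ D.map (QuotientGroup.mk' D₀) ≃* G ⧸ D :=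
    QuotientGroup.quotientQuotientEquivQuotient D₀ D hle
  exact C_congr hC e hQ

end fin

/-! ### semilinear groups -/

section sl

variable {K₀ K : Type} [Field K₀] [Field K] [Algebra K₀ K]

/-- the pairs `(z, T)` where `T` is an automorphism of the ring `W`, semilinear with respect to
`σ ^ z` -/
def SL (σ : K ≃ₐ[K₀] K) (W : Type) [CommRing W] [Algebra K W] :
    Subgroup (Multiplicative ℤ × RingAut W) where
  carrier := {p | ∀ (c : K) (w : W), p.2 (c • w) = (σ ^ (Multiplicative.toAdd p.1)) c • p.2 w}
  mul_mem' := by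
    intro p q hp hq c w
    show p.2 (q.2 (c • w)) = _
    rw [hq, hp]
    show (σ ^ _) ((σ ^ _) c) • _ = (σ ^ (Multiplicative.toAdd p.1 + Multiplicative.toAdd q.1)) c • _
    rw [zpow_add]
    rfl
  one_mem' := by
    intro c w
    show c • w = (σ ^ (0 : ℤ)) c • w
    rw [zpow_zero]
    rfl
  inv_mem' := by
    intro p hp c w
    show p.2⁻¹ (c • w) = (σ ^ (-Multiplicative.toAdd p.1)) c • p.2⁻¹ w
    have h1 : p.2 ((σ ^ (-Multiplicative.toAdd p.1)) c • p.2⁻¹ w) = c • w := by
      rw [hp]
      have h2 : (σ ^ (Multiplicative.toAdd p.1)) ((σ ^ (-Multiplicative.toAdd p.1)) c) = c := by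
        rw [← AlgEquiv.mul_apply, ← zpow_add, add_neg_cancel, zpow_zero]
        rfl
      rw [h2]
      congr 1
      exact p.2.apply_symm_apply w
    rw [← h1]
    exact p.2.symm_apply_apply _

variable {W : Type} [CommRing W] [Algebra K W]

theorem SL_smul {σ : K ≃ₐ[K₀] K} (p : SL σ W) (c : K) (w : W) :
    (p : Multiplicative ℤ × RingAut W).2 (c • w) =
      (σ ^ (Multiplicative.toAdd (p : Multiplicative ℤ × RingAut W).1)) c •
        (p : Multiplicative ℤ × RingAut W).2 w := p.2 c w

/-- the orbit of an algebraic element is finite -/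
theorem orbit_finite [Algebra.IsAlgebraic K₀ K] (σ : K ≃ₐ[K₀] K) (a : K) :
    (Set.range fun k : ℤ => (σ ^ k) a).Finite := by
  have ha : IsIntegral K₀ a := Algebra.IsIntegral.isIntegral a
  refine ((minpoly K₀ a).rootSet K).toFinite.subset ?_
  rintro _ ⟨k, rfl⟩
  rw [Polynomial.mem_rootSet]
  refine ⟨minpoly.ne_zero ha, ?_⟩
  have h1 : Polynomial.aeval ((σ ^ k) a) (minpoly K₀ a) =
      (σ ^ k) (Polynomial.aeval a (minpoly K₀ a)) := by
    rw [Polynomial.aeval_algHom_apply (σ ^ k : K ≃ₐ[K₀] K) a]
  rw [h1, minpoly.aeval, map_zero]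

/-- the semilinear group of a finite dimensional algebra over an algebraic extension of `K₀` -/
theorem C_SL {C : ∀ (G : Type) [Group G], Prop} (hC : ClosedE C) (hK : ∀ m, C (GL (Fin m) K₀))
    [Algebra.IsAlgebraic K₀ K] (σ : K ≃ₐ[K₀] K) (W : Type) [CommRing W] [Algebra K W]
    [Module.Finite K W] : C (SL σ W) := by
  classical
  let b := Module.finBasis K W
  letI : Algebra K₀ W := ((algebraMap K W).comp (algebraMap K₀ K)).toAlgebra
  haveI : IsScalarTower K₀ K W := IsScalarTower.of_algebraMap_eq (fun _ => rfl)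
  refine Pool.Agent.Y430.SS.of_directed hC.base _ (Finset (SL σ W)) (fun i j => ?_)
    (fun s => Subgroup.closure (s : Set (SL σ W)))
    (fun s t h => Subgroup.closure_mono (by exact_mod_cast h))
    (fun g => ⟨{g}, Subgroup.subset_closure (by simp)⟩) (fun E => ?_)
  · exact ⟨i ∪ j, Finset.subset_union_left, Finset.subset_union_right⟩
  show C (Subgroup.closure (E : Set (SL σ W)))
  -- the entries
  let en : SL σ W → Fin (Module.finrank K W) → Fin (Module.finrank K W) → K := fun p i j =>
    b.repr ((p : Multiplicative ℤ × RingAut W).2 (b i)) j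
  let S : Set K := ⋃ p ∈ E ∪ E.image (fun p => p⁻¹), ⋃ i, ⋃ j, Set.range fun k : ℤ =>
    (σ ^ k) (en p i j)
  have hSf : S.Finite := Set.Finite.biUnion (Finset.finite_toSet _) fun p _ =>
    Set.finite_iUnion fun i => Set.finite_iUnion fun j => orbit_finite σ _
  obtain ⟨F, hF⟩ : ∃ F : Subalgebra K₀ K, F = Algebra.adjoin K₀ S := ⟨_, rfl⟩
  have hFf : Module.Finite K₀ F := by
    rw [hF]
    exact Algebra.finite_adjoin_of_finite_of_isIntegral hSf
      fun x _ => Algebra.IsIntegral.isIntegral x
  have hσ : ∀ (k : ℤ), ∀ a ∈ F, (σ ^ k) a ∈ F := by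
    intro k a ha
    rw [hF] at ha ⊢
    induction ha using Algebra.adjoin_induction with
    | mem x hx =>
      refine Algebra.subset_adjoin ?_
      simp only [S, Set.mem_iUnion, Set.mem_range] at hx ⊢
      obtain ⟨p, hp, i, j, m, rfl⟩ := hx
      refine ⟨p, hp, i, j, k + m, ?_⟩
      rw [zpow_add]
      rfl
    | algebraMap r =>
      rw [AlgEquiv.commutes]
      exact Subalgebra.algebraMap_mem _ r
    | add x y _ _ hx hy =>
      rw [map_add]
      exact Subalgebra.add_mem _ hx hy
    | mul x y _ _ hx hy =>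
      rw [map_mul]
      exact Subalgebra.mul_mem _ hx hy
  have hen : ∀ p ∈ E ∪ E.image (fun p => p⁻¹), ∀ i j, en p i j ∈ F := by
    intro p hp i j
    rw [hF]
    refine Algebra.subset_adjoin ?_
    simp only [S, Set.mem_iUnion, Set.mem_range]
    exact ⟨p, hp, i, j, 0, by rw [zpow_zero]; rfl⟩
  -- the lattice
  let W₀ : Submodule K₀ W :=
    { carrier := {w | ∀ i, b.repr w i ∈ F}
      add_mem' := by
        intro x y hx hy i
        rw [map_add, Finsupp.add_apply]
        exact F.add_mem (hx i) (hy i)
      zero_mem' := by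
        intro i
        rw [map_zero, Finsupp.zero_apply]
        exact F.zero_mem
      smul_mem' := by
        intro c x hx i
        rw [← algebraMap_smul K c x, map_smul, Finsupp.smul_apply, algebraMap_smul]
        exact F.smul_mem (hx i) c }
  have hW₀ : ∀ w : W, w ∈ W₀ ↔ ∀ i, b.repr w i ∈ F := fun w => Iff.rfl
  have hW₀f : Module.Finite K₀ W₀ := by
    let f : W₀ →ₗ[K₀] (Fin (Module.finrank K W) → F) :=
      { toFun := fun w i => ⟨b.repr w i, w.2 i⟩
        map_add' := by
          intro x y
          funext i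
          apply Subtype.ext
          show b.repr ((x : W) + y) i = b.repr x i + b.repr y i
          rw [map_add, Finsupp.add_apply]
        map_smul' := by
          intro c x
          funext i
          apply Subtype.ext
          show b.repr (c • (x : W)) i = c • b.repr x i
          rw [← algebraMap_smul K c (x : W), map_smul, Finsupp.smul_apply, algebraMap_smul] }
    refine Module.Finite.of_injective f ?_
    intro x y hxy
    apply Subtype.ext
    apply b.repr.injective
    ext i
    exact congrArg Subtype.val (congrFun hxy i)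
  have hstep : ∀ p ∈ E ∪ E.image (fun p => p⁻¹), ∀ w ∈ W₀,
      (p : Multiplicative ℤ × RingAut W).2 w ∈ W₀ := by
    intro p hp w hw j
    have h1 : (p : Multiplicative ℤ × RingAut W).2 w =
        ∑ i, (σ ^ (Multiplicative.toAdd (p : Multiplicative ℤ × RingAut W).1)) (b.repr w i) •
          (p : Multiplicative ℤ × RingAut W).2 (b i) := by
      conv_lhs => rw [← b.sum_repr w]
      rw [map_sum]
      exact Finset.sum_congr rfl fun i _ => SL_smul p _ _
    rw [h1, map_sum, Finset.sum_apply']
    refine F.sum_mem fun i _ => ?_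
    rw [map_smul, Finsupp.smul_apply, smul_eq_mul]
    exact F.mul_mem (hσ _ _ (hw i)) (hen p hp i j)
  have hcl : ∀ p ∈ Subgroup.closure (E : Set (SL σ W)), ∀ w ∈ W₀,
      (p : Multiplicative ℤ × RingAut W).2 w ∈ W₀ ∧
        ((p⁻¹ : SL σ W) : Multiplicative ℤ × RingAut W).2 w ∈ W₀ := by
    intro p hp
    induction hp using Subgroup.closure_induction with
    | mem x hx =>
      intro w hw
      refine ⟨hstep x (Finset.mem_union_left _ hx) w hw, hstep _ (Finset.mem_union_right _ ?_) w hw⟩
      exact Finset.mem_image_of_mem _ hx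
    | one =>
      intro w hw
      rw [inv_one]
      exact ⟨hw, hw⟩
    | mul x y _ _ hx hy =>
      intro w hw
      rw [mul_inv_rev]
      exact ⟨(hx _ (hy w hw).1).1, (hy _ (hx w hw).2).2⟩
    | inv x _ hx =>
      intro w hw
      rw [inv_inv]
      exact ⟨(hx w hw).2, (hx w hw).1⟩
  let H := Subgroup.closure (E : Set (SL σ W))
  let τ : H →* Module.End K₀ W₀ :=
    { toFun := fun p =>
        { toFun := fun w => ⟨((p : SL σ W) : Multiplicative ℤ × RingAut W).2 w,
            (hcl p p.2 w w.2).1⟩
          map_add' := by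
            intro x y
            apply Subtype.ext
            exact map_add _ _ _
          map_smul' := by
            intro c x
            apply Subtype.ext
            show ((p : SL σ W) : Multiplicative ℤ × RingAut W).2 (c • (x : W)) =
              c • ((p : SL σ W) : Multiplicative ℤ × RingAut W).2 x
            rw [← algebraMap_smul K c (x : W), SL_smul, AlgEquiv.commutes, algebraMap_smul] }
      map_one' := by
        apply LinearMap.ext
        intro w
        rfl
      map_mul' := by
        intro p q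
        apply LinearMap.ext
        intro w
        rfl }
  obtain ⟨m, f, hf⟩ := exists_GL τ
  let g : H →* Multiplicative ℤ := (MonoidHom.fst _ _).comp ((SL σ W).subtype.comp H.subtype)
  refine hC.base.of_injective _ _ (f.prod g) ?_ (hC.base.prod _ _ (hK m) hC.base.int)
  rw [injective_iff_map_eq_one]
  intro p hp
  have h1 : τ p = 1 := hf p (congrArg Prod.fst hp)
  have h2 : ((p : SL σ W) : Multiplicative ℤ × RingAut W).1 = 1 := congrArg Prod.snd hp
  apply Subtype.ext
  apply Subtype.ext
  refine Prod.ext h2 ?_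
  have hb : ∀ i, b i ∈ W₀ := by
    intro i j
    rw [b.repr_self, Finsupp.single_apply]
    split_ifs
    · exact F.one_mem
    · exact F.zero_mem
  have h3 : ∀ i, ((p : SL σ W) : Multiplicative ℤ × RingAut W).2 (b i) = b i := by
    intro i
    exact congrArg Subtype.val (LinearMap.congr_fun h1 ⟨b i, hb i⟩)
  refine RingEquiv.ext fun w => ?_
  show ((p : SL σ W) : Multiplicative ℤ × RingAut W).2 w = w
  conv_lhs => rw [← b.sum_repr w]
  rw [map_sum]
  conv_rhs => rw [← b.sum_repr w]
  refine Finset.sum_congr rfl fun i _ => ?_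
  rw [SL_smul, h3, h2, toAdd_one, zpow_zero]
  rfl

end sl

end Pool.Agent.W2helper2.AK
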