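import Pool.Agent.W2helper2.AK.Edge
import Pool.Agent.N431.CE.Fin

/-!
# Groups acting on trees with linear edge groups whose commensurations are algebraic
-/

set_option autoImplicit false
set_option linter.unusedSectionVars false

namespace Pool.Agent.W2helper2.AK

open Pool.Agent.Y110.FJ (ClosedE)
open Subgroup.Commensurable (commensurator)
open Pool.Agent.N431.CE (Es Sv EC Kv)
open Pool.Agent.N77.CP (VCen Vc)
open Pool.Agent.N509.TX (AcylF)

variable {G : Type} [Group G]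

/-- Conjugation by `g` maps a subgroup `M` of finite index of `E` into `E`, and there it is given by
polynomials in the matrix entries of `x` and `x⁻¹`. -/
def AlgebraicOn {K : Type} [Field K] {n : ℕ} (E : Subgroup G) (ρ : E →* GL (Fin n) K) (g : G) :
    Prop :=
  ∃ M : Subgroup G, M ≤ E ∧ M.relIndex E ≠ 0 ∧
    ∃ P : Fin n → Fin n → MvPolynomial ((Fin n × Fin n) ⊕ (Fin n × Fin n)) K,
      ∀ x : E, (x : G) ∈ M → ∃ h : g * x * g⁻¹ ∈ E, ∀ i j : Fin n,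
        (ρ ⟨g * x * g⁻¹, h⟩ : Matrix (Fin n) (Fin n) K) i j = MvPolynomial.eval
          (Sum.elim (fun p => (ρ x : Matrix (Fin n) (Fin n) K) p.1 p.2)
            (fun p => (ρ x⁻¹ : Matrix (Fin n) (Fin n) K) p.1 p.2)) (P i j)

section

variable {K : Type} [Field K] {n : ℕ} {E : Subgroup G} {ρ : E →* GL (Fin n) K}

theorem AlgebraicOn.cmg {g : G} (h : AlgebraicOn E ρ g) : Cmg E g := by
  obtain ⟨M, h1, h2, P, h3⟩ := h
  exact ⟨M, h1, h2, fun x hx => (h3 ⟨x, h1 hx⟩ hx).1⟩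

theorem aeval_ent (P : MvPolynomial ((Fin n × Fin n) ⊕ (Fin n × Fin n)) K) :
    MvPolynomial.aeval (ent ρ) P ∈ CR ρ := by
  rw [CR, Algebra.adjoin_range_eq_range_aeval]
  exact ⟨P, rfl⟩

theorem aeval_ent_apply (P : MvPolynomial ((Fin n × Fin n) ⊕ (Fin n × Fin n)) K) (x : E) :
    MvPolynomial.aeval (ent ρ) P x = MvPolynomial.eval
      (Sum.elim (fun p => (ρ x : Matrix (Fin n) (Fin n) K) p.1 p.2)
        (fun p => (ρ x⁻¹ : Matrix (Fin n) (Fin n) K) p.1 p.2)) P := by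
  have h3 : (Pi.evalAlgHom K (fun _ : E => K) x) (MvPolynomial.aeval (ent ρ) P) =
      MvPolynomial.aeval (fun s => ent ρ s x) P :=
    MvPolynomial.comp_aeval_apply _ (Pi.evalAlgHom K (fun _ : E => K) x) _
  refine h3.trans ?_
  have h4 : (fun s => ent ρ s x) = Sum.elim (fun p => (ρ x : Matrix (Fin n) (Fin n) K) p.1 p.2)
      (fun p => (ρ x⁻¹ : Matrix (Fin n) (Fin n) K) p.1 p.2) := by
    funext s
    rcases s with p | p <;> rfl
  rw [h4]
  rfl

theorem tau_mem (H : Subgroup G) (hH : ∀ g ∈ H, Cmg E g) (hal : ∀ g ∈ H, AlgebraicOn E ρ g) (g : H)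
    (a : Qg E K) (ha : a ∈ AA ρ) : tau E H hH K g a ∈ AA ρ := by
  obtain ⟨M, h1, h2, P, h3⟩ := hal _ (H.inv_mem g.2)
  have hM : Big E {x | x ∈ M} := ⟨M, h1, h2, fun _ h => h⟩
  refine AA_induction ρ (p := fun a => tau E H hH K g a ∈ AA ρ) ?_ ?_ ?_ ?_ ha
  · intro s
    rcases s with p | p
    · refine (mem_AA ρ).2 ⟨_, aeval_ent (ρ := ρ) (P p.1 p.2), ?_⟩
      rw [io_apply, io_apply, tau_gm, gm_eq]
      refine hM.mono fun x hx => ?_
      obtain ⟨h4, h5⟩ := h3 ⟨x, h1 hx⟩ hx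
      have h6 : (g : G)⁻¹ * x * (g : G)⁻¹⁻¹ = (g : G)⁻¹ * x * (g : G) := by rw [inv_inv]
      show co _ x = co _ ((g : G)⁻¹ * x * (g : G))
      rw [← h6, co_apply _ _ (h1 hx), co_apply _ _ h4, aeval_ent_apply, ← h5]
      rfl
    · refine (mem_AA ρ).2 ⟨_, inv_mem ρ (aeval_ent (ρ := ρ) (P p.1 p.2)), ?_⟩
      rw [io_apply, io_apply, tau_gm, gm_eq]
      refine hM.mono fun x hx => ?_
      obtain ⟨h4, h5⟩ := h3 (⟨x, h1 hx⟩ : E)⁻¹ (M.inv_mem hx)
      obtain ⟨h4', -⟩ := h3 (⟨x, h1 hx⟩ : E) hx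
      have h6 : (g : G)⁻¹ * x * (g : G)⁻¹⁻¹ = (g : G)⁻¹ * x * (g : G) := by rw [inv_inv]
      show co _ x = co _ ((g : G)⁻¹ * x * (g : G))
      rw [← h6, co_apply _ _ (h1 hx), co_apply _ _ h4', aeval_ent_apply, ← h5]
      show (ρ _ : Matrix (Fin n) (Fin n) K) p.1 p.2 = (ρ (_)⁻¹ : Matrix (Fin n) (Fin n) K) p.1 p.2
      have h7 : (⟨_, h4⟩ : E) = (⟨_, h4'⟩ : E)⁻¹ := by
        apply Subtype.ext
        show (g : G)⁻¹ * x⁻¹ * (g : G)⁻¹⁻¹ = ((g : G)⁻¹ * x * (g : G)⁻¹⁻¹)⁻¹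
        group
      rw [h7]
  · intro r
    rw [AlgHom.commutes]
    exact (AA ρ).algebraMap_mem r
  · intro a _ b _ ha hb
    rw [map_add]
    exact (AA ρ).add_mem ha hb
  · intro a _ b _ ha hb
    rw [map_mul]
    exact (AA ρ).mul_mem ha hb

/-- the tangent representation -/
theorem exists_hom [CharZero K] (hρ : Function.Injective ρ) (H : Subgroup G)
    (hal : ∀ g ∈ H, AlgebraicOn E ρ g) : ∃ (d : ℕ) (f : H →* GL (Fin d) K), ∀ g : H, f g = 1 →
      VCen E (g : G) :=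
  exists_tangent ρ (fun g hg => (hal g hg).cmg) (tau_mem H _ hal) hρ

end

/-- `E` is linear over a field of characteristic zero, with general linear groups in the class, and
all elements of `H` induce algebraic commensurations -/
def AlgebraicBy (C : ∀ (G : Type) [Group G], Prop) (H E : Subgroup G) : Prop :=
  ∃ (K : Type) (_ : Field K) (_ : CharZero K) (n : ℕ) (ρ : E →* GL (Fin n) K),
    (∀ m, C (GL (Fin m) K)) ∧ Function.Injective ρ ∧ ∀ g ∈ H, AlgebraicOn E ρ g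

variable {C : ∀ (G : Type) [Group G], Prop} {V : Type} [MulAction G V] {T : SimpleGraph V}

theorem EC_of {v u : V} (h : AlgebraicBy C (commensurator (Es G v u)) (Es G v u))
    (hS : Es G v u ⊓ ⁅Sv G v u, Sv G v u⁆ = ⊥) : EC C G v u := by
  obtain ⟨K, _, _, n, ρ, hK, hρ, hal⟩ := h
  obtain ⟨d, f, hf⟩ := exists_hom hρ _ hal
  refine Or.inl ⟨_, _, f, hK d, ?_⟩
  have h2 : Kv f v ≤ Sv G v u := by
    rintro _ ⟨hg, ⟨g, hg1, rfl⟩⟩
    exact ⟨hg, hf g hg1⟩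
  rw [eq_bot_iff, ← hS]
  exact inf_le_inf_left _ (Subgroup.commutator_mono h2 h2)

/-- isolated edge groups -/
theorem isolated_alg (hC : ClosedE C) (hM : ∀ (G : Type) [Group G], derivedSeries G 2 = ⊥ → C G)
    (hA : AcylF C) (hT : T.IsTree) (hact : ∀ (g : G) (u v : V), T.Adj u v → T.Adj (g • u) (g • v))
    (hV : ∀ v : V, C ↥(MulAction.stabilizer G v)) (n : ℕ)
    (hint : ∀ v a b, T.Adj v a → T.Adj v b → a ≠ b →
      (Infinite (Es G v a) ∧ Infinite (Es G v b) ∧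
        Subgroup.Commensurable (Es G v a) (Es G v b)) ∨
      ∀ F : Finset G, (∀ g ∈ F, g ∈ Es G v a ∧ g ∈ Es G v b) → F.card ≤ n)
    (hE : ∀ v u : V, T.Adj v u → Infinite (Es G v u) → EC C G v u ∨
      (AlgebraicBy C (commensurator (Es G v u)) (Es G v u) ∧
        Es G v u ⊓ ⁅Sv G v u, Sv G v u⁆ = ⊥)) : C G :=
  Pool.Agent.N431.CE.main hC hM hA hT hact hV n hint fun v u h hi =>
    (hE v u h hi).elim id fun h => EC_of h.1 h.2

/-- commensurable stabilizers -/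
theorem comm_alg (hC : ClosedE C) (hM : ∀ (G : Type) [Group G], derivedSeries G 2 = ⊥ → C G)
    (hT : T.IsTree) (hact : ∀ (g : G) (x y : V), T.Adj x y → T.Adj (g • x) (g • y))
    (N : Subgroup G) [N.Normal] (hQ : C (G ⧸ N))
    (hfin : ∀ x y : V, T.Adj x y →
      (N ⊓ MulAction.stabilizer G x).relIndex (N ⊓ MulAction.stabilizer G y) ≠ 0)
    (hfn : ∀ (x : V) (F : Subgroup ↥(N ⊓ MulAction.stabilizer G x)), F.Normal → Finite F → F = ⊥)
    (o : V) (hal : AlgebraicBy C ⊤ (N ⊓ MulAction.stabilizer G o)) : C G := by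
  obtain ⟨K, _, _, n, ρ, hK, hρ, hal⟩ := hal
  obtain ⟨d, f, hf⟩ := exists_hom hρ _ hal
  refine (Pool.Agent.N77.CP.final hC hM T hT hact N hQ hfin hfn o).1 (Or.inr
    ⟨_, _, f.comp Subgroup.topEquiv.symm.toMonoidHom, hK d, fun g hg => ?_⟩)
  exact hf ⟨g, trivial⟩ hg

end Pool.Agent.W2helper2.AK
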